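import Pool.Agent.Work.MP_501976_tw.Interface

/-!
# Block BAS: completion of an independent family of integer vectors
-/

set_option autoImplicit false

universe u v

open MvPolynomial MP501976

namespace Pool.TW

theorem BAS_comp {d : ℕ} {ι κ : Type} {M : ι → Fin d → ℤ} (h : LI M) (g : κ → ι) (hg : Function.Injective g)
    (M' : κ → Fin d → ℤ) (hM : ∀ o, M' o = M (g o)) : LI M' := by
  unfold LI at h ⊢
  have h1 := h.comp g hg
  have h2 : (fun o : κ => fun i : Fin d => ((M' o i : ℤ) : ℚ)) =
      (fun o : ι => fun i : Fin d => ((M o i : ℤ) : ℚ)) ∘ g := by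
    funext o i
    simp only [Function.comp_apply, hM]
  rw [h2]
  exact h1

theorem BAS_std {d : ℕ} (W : Submodule ℚ (Fin d → ℚ)) (hW : W ≠ ⊤) : ∃ j : Fin d,
    (fun i : Fin d => (((Pi.single j (1 : ℤ) : Fin d → ℤ) i : ℤ) : ℚ)) ∉ W := by
  by_contra hcon
  push Not at hcon
  apply hW
  rw [eq_top_iff]
  intro x _
  have h1 : x = ∑ j, x j • (fun i : Fin d => (((Pi.single j (1 : ℤ) : Fin d → ℤ) i : ℤ) : ℚ)) := by
    funext i
    rw [Finset.sum_apply, Finset.sum_eq_single i]
    · simp
    · intro j _ hj
      simp [Pi.single_apply, Ne.symm hj]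
    · intro h
      exact absurd (Finset.mem_univ i) h
  rw [h1]
  exact Submodule.sum_mem _ fun j _ => Submodule.smul_mem _ _ (hcon j)

theorem BAS_ind (d k : ℕ) : ∀ (ι : Type) [Fintype ι] (M : ι → Fin d → ℤ), LI M → Fintype.card ι + k = d →
    ∃ v : Fin k → Fin d → ℤ, LI (Sum.elim M v : ι ⊕ Fin k → Fin d → ℤ) := by
  induction k with
  | zero =>
    intro ι _ M hM _
    refine ⟨fun l => l.elim0, ?_⟩
    refine BAS_comp hM (fun o : ι ⊕ Fin 0 => Sum.elim id (fun l : Fin 0 => l.elim0) o) ?_ _ ?_
    · rintro (a | a) (b | b) h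
      · exact congrArg _ h
      · exact b.elim0
      · exact a.elim0
      · exact a.elim0
    · rintro (a | a)
      · rfl
      · exact a.elim0
  | succ k ih =>
    intro ι _ M hM hc
    have hne : Submodule.span ℚ (Set.range (fun o : ι => fun i : Fin d => ((M o i : ℤ) : ℚ))) ≠ ⊤ := by
      intro h
      have h1 := finrank_span_eq_card (R := ℚ) hM
      rw [h, finrank_top, Module.finrank_fin_fun] at h1
      omega
    obtain ⟨j, hj⟩ := BAS_std _ hne
    have hM' : LI (fun o : Option ι => o.elim (Pi.single j (1 : ℤ) : Fin d → ℤ) M) := by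
      unfold LI
      rw [linearIndependent_option]
      exact ⟨hM, hj⟩
    obtain ⟨v, hv⟩ := ih (Option ι) _ hM' (by rw [Fintype.card_option]; omega)
    refine ⟨Fin.cons (Pi.single j (1 : ℤ)) v, ?_⟩
    refine BAS_comp hv (Sum.elim (fun i => Sum.inl (some i))
      (Fin.cons (Sum.inl none) (fun l => Sum.inr l) : Fin (k + 1) → Option ι ⊕ Fin k)) ?_ _ ?_
    · rintro (a | a) (b | b) h
      · simpa using h
      · refine Fin.cases (fun h => ?_) (fun l h => ?_) b h <;> simp at h
      · refine Fin.cases (fun h => ?_) (fun l h => ?_) a h <;> simp at h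
      · revert h
        refine Fin.cases ?_ (fun l => ?_) a <;> refine Fin.cases ?_ (fun l' => ?_) b
        · intro _; rfl
        · intro h; simp at h
        · intro h; simp at h
        · intro h; simpa using h
    · rintro (a | a)
      · rfl
      · refine Fin.cases ?_ (fun l => ?_) a
        · rfl
        · simp

theorem p_BAS : S_BAS := by
  intro d N M hM
  have h1 : N + 1 ≤ d := by
    have h := hM.fintype_card_le_finrank
    rw [Module.finrank_fin_fun, Fintype.card_option, Fintype.card_fin] at h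
    exact h
  obtain ⟨v, hv⟩ := BAS_ind d (d - (N + 1)) (Option (Fin N)) M hM (by
    rw [Fintype.card_option, Fintype.card_fin]
    omega)
  refine ⟨d - (N + 1), v, by omega, ?_⟩
  let g : Option (Fin N ⊕ Fin (d - (N + 1))) → Option (Fin N) ⊕ Fin (d - (N + 1)) := fun o =>
    match o with
    | none => Sum.inl none
    | some (Sum.inl j) => Sum.inl (some j)
    | some (Sum.inr l) => Sum.inr l
  refine BAS_comp hv g ?_ _ ?_
  · rintro (_ | (a | a)) (_ | (b | b)) h <;> simp_all [g]
  · rintro (_ | (a | a)) <;> rfl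

end Pool.TW
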