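import Mathlib
import Pool.Agent.Work.MP_501976_ag_helper95.Cone

/-!
# MP_501976_ag, THEOREM TW: hypersurfaces of lattice width two, the blocks

Files `B_X.lean` in `Pool/Agent/Work/MP_501976_tw`, `import Pool.Agent.Work.MP_501976_tw.Interface`, `universe u v`,
namespace `Pool.TW`, `theorem p_X : S_X.{..}`; auxiliary names with the name of the block in front.
-/

set_option autoImplicit false

universe u v

open MvPolynomial MP501976

namespace Pool.TW

/-- the family `e, u 0, .., u (N-1), v 0, .., v (R-1)` -/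
def ext {d N R : ℕ} (M : Option (Fin N) → Fin d → ℤ) (v : Fin R → Fin d → ℤ) : Option (Fin N ⊕ Fin R) → Fin d → ℤ
  | none => M none
  | some (Sum.inl j) => M (some j)
  | some (Sum.inr l) => v l

/-- the family `e, u 0, .., u (N-1)` -/
def fam {d N : ℕ} (e : Fin d → ℤ) (u : Fin N → Fin d → ℤ) : Option (Fin N) → Fin d → ℤ
  | none => e
  | some j => u j

/-- integer vectors are independent over the rational numbers -/
def LI {d : ℕ} {ι : Type} (M : ι → Fin d → ℤ) : Prop := LinearIndependent ℚ (fun o : ι => fun i : Fin d => ((M o i : ℤ) : ℚ))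

/-- **CIR** (120). Among the nonzero `b : Fin r → ℕ` which vanish at all `j` with `u j` proportional to `e` and for which `∑ b j u j` is
a rational multiple of `e` (there is one: `a` restricted) choose one with minimal support and divide by the gcd. If
`{e} ∪ {u j, j ∈ supp, j ≠ j0}` were dependent, there would be a rational relation `c` on `supp - j0`, not zero (also outside `e`: `e ≠ 0`),
and `b - t c` with a suitable rational `t`, times a denominator, would have smaller support (it is `b j0 > 0` at `j0`). `1 ≤ N` because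
a single `u j` of the support is not proportional to `e`. -/
def S_CIR : Prop := ∀ (d r : ℕ) (u : Fin r → Fin d → ℤ) (a : Fin r → ℕ), (∀ j, 0 < a j) → (∀ i, ∑ j, (a j : ℤ) * u j i = 0) →
  ∀ e : Fin d → ℤ, (∃ j i i', u j i * e i' ≠ u j i' * e i) →
  ∃ (N : ℕ) (J : Fin (N + 1) → Fin r) (b : Fin (N + 1) → ℕ) (q : ℕ) (p : ℤ), 1 ≤ N ∧ 0 < q ∧ (∀ j, 0 < b j) ∧
    Finset.univ.gcd b = 1 ∧ (∀ i, (q : ℤ) * ∑ j, (b j : ℤ) * u (J j) i = p * e i) ∧
    LI (fam e (fun j : Fin N => u (J j.succ)))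

/-- **BAS** (60). Completion of an independent family of integer vectors to a basis of `ℚ ^ d` by standard vectors (exchange:
`exists_linearIndependent_extension`, or induction on `d - N - 1`: if the span is not everything, some standard vector is not in it). -/
def S_BAS : Prop := ∀ (d N : ℕ) (M : Option (Fin N) → Fin d → ℤ), LI M →
  ∃ (R : ℕ) (v : Fin R → Fin d → ℤ), N + 1 + R = d ∧ LI (ext M v)

/-- **INV** (80). Monomial inversion. Identify `ι` with `Fin d`; `M` is a matrix with determinant `δ ≠ 0`. Roots `ρ i ^ |δ| = x i`,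
`t α = ∏ i, ρ i ^ (± adjugate i α)`. -/
def S_INV : Prop := ∀ (Ω : Type u) [Field Ω] [IsAlgClosed Ω] (ι : Type) [Fintype ι] (d : ℕ), Fintype.card ι = d →
  ∀ M : ι → Fin d → ℤ, LI M → ∀ x : Fin d → Ω, (∀ i, x i ≠ 0) →
  ∃ t : ι → Ω, (∀ o, t o ≠ 0) ∧ (∀ i, x i = ∏ o, t o ^ M o i) ∧
    ∀ o, ∃ n : ℕ, 0 < n ∧ ∃ c : Fin d → ℤ, t o ^ n = ∏ i, x i ^ c i

/-- **LAU** (50). Laurent monomials in algebraically independent elements are linearly independent: multiply by
`∏ t o ^ B` with `B` large and use `MvPolynomial`. -/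
def S_LAU : Prop := ∀ (k : Type v) [Field k] (Ω : Type u) [Field Ω] [Algebra k Ω] (ι : Type) [Fintype ι] (t : ι → Ω),
  AlgebraicIndependent k t → ∀ g : (ι → ℤ) →₀ k, g.sum (fun m c => algebraMap k Ω c * ∏ o, t o ^ m o) = 0 → g = 0

/-- **KC** (80). `kummer_cones` in the field `L' = k(Z)(y, w)` with base field `k(Z)`, no equations (`G : Fin 0`; the kernel is `⊥` by algebraic
independence, and `(Ideal.span ∅).minimalPrimes = {⊥}`), one branch polynomial `D` (`s = 0`), `e = 2`, `m = ∑ wt ≥ 2`, one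
generator `w` (`r = 1`, `q = 2`, `n = 1`). `k(Z)` is essentially of finite type over `ℂ`: `IntermediateField.essFiniteType_iff`,
`Algebra.EssFiniteType.comp`. `IntermediateField.adjoin_adjoin_left`. -/
def S_KC : Prop := ∀ (k : Type v) [Field k] [Algebra ℂ k] [Algebra.EssFiniteType ℂ k] (Ω : Type u) [Field Ω] [Algebra ℂ Ω]
  [Algebra k Ω] [IsScalarTower ℂ k Ω] (Z : Set Ω), Z.Finite → ∀ (N : ℕ), 1 ≤ N → ∀ y : Fin (N + 1) → Ω,
  AlgebraicIndependent (IntermediateField.adjoin k Z) y → ∀ wt : Fin (N + 1) → ℕ, (∀ j, 0 < wt j) →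
  Finset.univ.gcd wt = 1 → ∀ D : MvPolynomial (Fin (N + 1)) (IntermediateField.adjoin k Z),
  MvPolynomial.weightedTotalDegree wt D ≤ 2 * ∑ j, wt j → ∀ w : Ω, w ^ 2 = MvPolynomial.aeval y D → w ≠ 0 →
  ∀ (L₀ : Type u) [Field L₀] [Algebra ℂ L₀] [Algebra L₀ Ω] [IsScalarTower ℂ L₀ Ω],
  (∀ a : L₀, algebraMap L₀ Ω a ∈ IntermediateField.adjoin k (Z ∪ Set.range y ∪ {w})) →
  (∀ i, IsAlgebraic L₀ (y i ^ wt 0 / y 0 ^ wt i)) → SweptOutByEllipticCurves L₀

/-- **POL** (120). `P i = ∑ m ∈ T with h m = i, monomial (n m j + 1)_j (c m)` for `i = 1, 0, -1`, weighted homogeneous of degree `∑ b + (p / q) i`;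
`A = aeval y (P 1)` etc. satisfy `A ξ ^ 2 + B ξ + C = 0`, not all zero. If `A = 0` or `B ^ 2 = 4 A C`, then `ξ ∈ κ(y)`, take `D = 1`, `w = 1`.
Otherwise `D = (P 0) ^ 2 - 4 (P 1) (P (-1))`, `w = 2 A ξ + B`. -/
def S_POL : Prop := ∀ (κ : Type v) [Field κ] (Ω : Type u) [Field Ω] [CharZero Ω] [Algebra κ Ω] (τ : Type) (T : Finset τ) (c : τ → κ)
  (h : τ → ℤ) (N : ℕ) (n : τ → Fin (N + 1) → ℤ) (b : Fin (N + 1) → ℕ) (q : ℕ) (p : ℤ), 0 < q → (∀ m ∈ T, |h m| ≤ 1) →
  (∀ m ∈ T, ∀ j, -1 ≤ n m j) → (∀ m ∈ T, (q : ℤ) * ∑ j, (b j : ℤ) * n m j = p * h m) →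
  ∀ (y : Fin (N + 1) → Ω) (ξ : Ω), (∀ j, y j ≠ 0) → ξ ≠ 0 →
  ∑ m ∈ T, algebraMap κ Ω (c m) * ξ ^ h m * ∏ j, y j ^ n m j = 0 →
  (∃ i : ℤ, ∑ m ∈ T with h m = i, algebraMap κ Ω (c m) * ∏ j, y j ^ n m j ≠ 0) →
  ∃ (D : MvPolynomial (Fin (N + 1)) κ) (w : Ω), MvPolynomial.weightedTotalDegree b D ≤ 2 * ∑ j, b j ∧
    w ^ 2 = MvPolynomial.aeval y D ∧ w ≠ 0 ∧ ξ ∈ IntermediateField.adjoin κ (Set.range y ∪ {w})

/-- **SUM** (40). `AlgebraicIndependent.sumElim_iff` and the passage from `Algebra.adjoin` to its field of fractions. -/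
def S_SUM : Prop := ∀ (k : Type v) [Field k] (Ω : Type u) [Field Ω] [Algebra k Ω] (N R : ℕ) (y : Fin N → Ω) (z : Fin R → Ω),
  AlgebraicIndependent k (Sum.elim y z : Fin N ⊕ Fin R → Ω) →
  AlgebraicIndependent (IntermediateField.adjoin k (Set.range z)) y

/-- **IND** (100). Let `κ` be the image field. `y` and `μ` are `N + 1` algebraically independent elements over `κ` (`μ` is transcendental
over `Ω`), and they are algebraic over `κ(y')`, `y'` the new family (`μ` is a root of `T ^ a 0 - y' 0`, then `y j = y' / μ ^ a`). So the `N + 1` elements `y'`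
are a transcendence basis (`isTranscendenceBasis_of_le_trdeg_of_finite`). -/
def S_IND : Prop := ∀ (k : Type v) [Field k] (Ω Ω₁ : Type u) [Field Ω] [Field Ω₁] [Algebra k Ω] [Algebra Ω Ω₁] [Algebra k Ω₁]
  [IsScalarTower k Ω Ω₁] (μ : Ω₁), Transcendental Ω μ → ∀ (Z : Set Ω) (N : ℕ) (y : Fin N → Ω),
  AlgebraicIndependent (IntermediateField.adjoin k Z) y → ∀ a : Fin (N + 1) → ℕ, 0 < a 0 →
  AlgebraicIndependent (IntermediateField.adjoin k (algebraMap Ω Ω₁ '' Z))
    (Fin.cons (μ ^ a 0) (fun j => algebraMap Ω Ω₁ (y j) * μ ^ a j.succ) : Fin (N + 1) → Ω₁)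

/-- **TR** (60). Otherwise `k(t, ξ)` is algebraic over `k(t)`, whose transcendence degree is less than `card ι` (a transcendence basis of `k(t)` can be chosen
in `range t`, and it is not all of it, `exists_isTranscendenceBasis_subset`), so `trdeg k L < card ι`. -/
def S_TR : Prop := ∀ (k : Type v) [Field k] (L Ω : Type u) [Field L] [Field Ω] [Algebra k L] [Algebra L Ω] [Algebra k Ω]
  [IsScalarTower k L Ω] (ι : Type) [Fintype ι] (t : ι → Ω) (ξ : Ω), ((Fintype.card ι : ℕ) : Cardinal) ≤ Algebra.trdeg k L →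
  (∀ a : L, algebraMap L Ω a ∈ IntermediateField.adjoin k (Set.range t ∪ {ξ})) → ¬ AlgebraicIndependent k t →
  Transcendental (IntermediateField.adjoin k (Set.range t)) ξ

/-- the assembly (helper58) -/
def S_FIN : Prop := ∀ (k : Type v) [Field k] [Algebra ℂ k] [Algebra.EssFiniteType ℂ k] (L : Type u) [Field L] [Algebra ℂ L]
  [Algebra k L] [IsScalarTower ℂ k L] (d : ℕ) (x : Fin (d + 1) → L), (∀ i, x i ≠ 0) →
  IntermediateField.adjoin k (Set.range x) = ⊤ → (d : Cardinal) ≤ Algebra.trdeg k L →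
  ∀ f : (Fin (d + 1) → ℤ) →₀ k, f ≠ 0 → f.sum (fun m c => algebraMap k L c * ∏ i, x i ^ m i) = 0 →
  ∀ (r : ℕ) (u : Fin r → Fin (d + 1) → ℤ) (a : Fin r → ℕ), (∀ j, 0 < a j) → (∀ i, ∑ j, (a j : ℤ) * u j i = 0) →
  ∀ e : Fin (d + 1) → ℤ, (∃ j i i', u j i * e i' ≠ u j i' * e i) →
  (∀ m ∈ f.support, ∀ j, -1 ≤ ∑ i, m i * u j i) → (∀ m ∈ f.support, |∑ i, m i * e i| ≤ 1) →
  ∀ (L₀ : Type u) [Field L₀] [Algebra ℂ L₀] [Algebra L₀ L] [IsScalarTower ℂ L₀ L], (∀ i, IsAlgebraic L₀ (x i)) →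
  SweptOutByEllipticCurves L₀

end Pool.TW
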