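import Mathlib
import Pool.Agent.Work.MP_501976_tw.Interface

/-!
# Block CIR: a circuit modulo a vector
-/

set_option autoImplicit false

universe u v

open MvPolynomial MP501976

namespace Pool.TW

/-- supports of the admissible relations -/
def CIR_P {d r : ℕ} (D : Fin r → Fin d → Fin d → ℤ) (S : Finset (Fin r)) : Prop :=
  S.Nonempty ∧ (∀ j ∈ S, ∃ i i', D j i i' ≠ 0) ∧ ∃ b : Fin r → ℕ, (∀ j, 0 < b j ↔ j ∈ S) ∧
    ∀ i i', ∑ j, (b j : ℤ) * D j i i' = 0

theorem CIR_min {d r : ℕ} (D : Fin r → Fin d → Fin d → ℤ) (S : Finset (Fin r)) (b : Fin r → ℕ)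
    (hA : ∀ j ∈ S, ∃ i i', D j i i' ≠ 0) (hb : ∀ j, 0 < b j ↔ j ∈ S)
    (hs : ∀ i i', ∑ j, (b j : ℤ) * D j i i' = 0)
    (hmin : ∀ S', CIR_P D S' → S.card ≤ S'.card) (c : Fin r → ℤ) (hc : ∀ j, c j ≠ 0 → j ∈ S)
    (x0 : Fin r) (hx0 : x0 ∈ S) (hc0 : c x0 = 0) (hcs : ∀ i i', ∑ j, c j * D j i i' = 0) :
    ∀ j, c j ≤ 0 := by
  classical
  by_contra hcon
  push Not at hcon
  obtain ⟨y, hy⟩ := hcon
  obtain ⟨x1, hx1, hx1min⟩ := Finset.exists_min_image (Finset.univ.filter fun x => 0 < c x)
    (fun x => (b x : ℚ) / (c x : ℚ)) ⟨y, Finset.mem_filter.mpr ⟨Finset.mem_univ _, hy⟩⟩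
  have hc1 : 0 < c x1 := (Finset.mem_filter.mp hx1).2
  have hc1q : (0 : ℚ) < (c x1 : ℚ) := by exact_mod_cast hc1
  have hnn : ∀ x, 0 ≤ c x1 * (b x : ℤ) - (b x1 : ℤ) * c x := by
    intro x
    by_cases hx : 0 < c x
    · have h1 := hx1min x (Finset.mem_filter.mpr ⟨Finset.mem_univ _, hx⟩)
      have hxq : (0 : ℚ) < (c x : ℚ) := by exact_mod_cast hx
      rw [div_le_div_iff₀ hc1q hxq] at h1
      have h2 : (b x1 : ℤ) * c x ≤ (b x : ℤ) * c x1 := by exact_mod_cast h1
      linarith [mul_comm (c x1) (b x : ℤ)]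
    · push Not at hx
      have h1 : (b x1 : ℤ) * c x ≤ 0 := mul_nonpos_of_nonneg_of_nonpos (Int.natCast_nonneg _) hx
      have h2 : 0 ≤ c x1 * (b x : ℤ) := mul_nonneg hc1.le (Int.natCast_nonneg _)
      linarith
  let b2 : Fin r → ℕ := fun x => (c x1 * (b x : ℤ) - (b x1 : ℤ) * c x).toNat
  have hb2 : ∀ x, (b2 x : ℤ) = c x1 * (b x : ℤ) - (b x1 : ℤ) * c x := fun x =>
    Int.toNat_of_nonneg (hnn x)
  let S2 : Finset (Fin r) := Finset.univ.filter fun x => 0 < b2 x
  have hsub : S2 ⊆ S := by
    intro x hx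
    by_contra hxS
    have h1 : b x = 0 := by
      by_contra h
      exact hxS ((hb x).mp (Nat.pos_of_ne_zero h))
    have h2 : c x = 0 := by
      by_contra h
      exact hxS (hc x h)
    have h3 := hb2 x
    rw [h1, h2] at h3
    have h4 : 0 < b2 x := (Finset.mem_filter.mp hx).2
    simp only [Nat.cast_zero, mul_zero, sub_zero] at h3
    omega
  have hx1S : x1 ∈ S := hc x1 hc1.ne'
  have hx1S2 : x1 ∉ S2 := by
    intro h
    have h3 := hb2 x1
    have h4 : 0 < b2 x1 := (Finset.mem_filter.mp h).2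
    rw [mul_comm, sub_self] at h3
    omega
  have hx0S2 : x0 ∈ S2 := by
    refine Finset.mem_filter.mpr ⟨Finset.mem_univ _, ?_⟩
    have h3 := hb2 x0
    rw [hc0, mul_zero, sub_zero] at h3
    have h4 : (0 : ℤ) < (b x0 : ℤ) := by exact_mod_cast (hb x0).mpr hx0
    have h5 : 0 < c x1 * (b x0 : ℤ) := mul_pos hc1 h4
    rw [← h3] at h5
    exact_mod_cast h5
  have hP : CIR_P D S2 := by
    refine ⟨⟨x0, hx0S2⟩, fun j hj => hA j (hsub hj), b2, fun j => ?_, fun i i' => ?_⟩
    · exact ⟨fun h => Finset.mem_filter.mpr ⟨Finset.mem_univ _, h⟩,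
        fun h => (Finset.mem_filter.mp h).2⟩
    · have h1 : ∀ j, (b2 j : ℤ) * D j i i' =
          c x1 * ((b j : ℤ) * D j i i') - (b x1 : ℤ) * (c j * D j i i') := by
        intro j
        rw [hb2 j]
        ring
      rw [Finset.sum_congr rfl fun j _ => h1 j, Finset.sum_sub_distrib, ← Finset.mul_sum,
        ← Finset.mul_sum, hs i i', hcs i i']
      ring
  have hlt : S2.card < S.card :=
    Finset.card_lt_card ⟨hsub, fun h => hx1S2 (h hx1S)⟩
  exact absurd (hmin S2 hP) (by omega)

theorem p_CIR : S_CIR := by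
  classical
  intro d r u a ha hsum e ⟨j₀, i₀, i₀', hne⟩
  let D : Fin r → Fin d → Fin d → ℤ := fun j i i' => u j i * e i' - u j i' * e i
  have hD : ∀ j i i', D j i i' = u j i * e i' - u j i' * e i := fun _ _ _ => rfl
  -- `e` is not zero
  obtain ⟨k₀, hk₀⟩ : ∃ k, e k ≠ 0 := by
    by_contra h
    push Not at h
    exact hne (by rw [h i₀, h i₀', mul_zero, mul_zero])
  -- proportional vectors
  have hprop : ∀ w : Fin d → ℤ, (∀ i i', w i * e i' - w i' * e i = 0) →
      ∃ (q : ℕ) (p : ℤ), 0 < q ∧ ∀ i, (q : ℤ) * w i = p * e i := by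
    intro w hw
    refine ⟨(e k₀).natAbs, (e k₀).sign * w k₀, Int.natAbs_pos.mpr hk₀, fun i => ?_⟩
    have h1 := hw i k₀
    have h2 : ((e k₀).natAbs : ℤ) = (e k₀).sign * e k₀ := by
      rw [Int.sign_mul_self_eq_abs, Int.natCast_natAbs]
    rw [h2]
    linear_combination (e k₀).sign * h1
  -- the family of supports is not empty
  have hex : ∃ S, CIR_P D S := by
    refine ⟨Finset.univ.filter fun j => ∃ i i', D j i i' ≠ 0, ?_, ?_, ?_⟩
    · exact ⟨j₀, Finset.mem_filter.mpr ⟨Finset.mem_univ _, i₀, i₀', sub_ne_zero.mpr hne⟩⟩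
    · intro j hj
      exact (Finset.mem_filter.mp hj).2
    · refine ⟨fun j => if ∃ i i', D j i i' ≠ 0 then a j else 0, fun j => ?_, fun i i' => ?_⟩
      · rw [Finset.mem_filter]
        show 0 < (if ∃ i i', D j i i' ≠ 0 then a j else 0) ↔ _
        by_cases h : ∃ i i', D j i i' ≠ 0
        · rw [if_pos h]
          exact ⟨fun _ => ⟨Finset.mem_univ _, h⟩, fun _ => ha j⟩
        · rw [if_neg h]
          exact ⟨fun h' => absurd h' (lt_irrefl _), fun h' => absurd h'.2 h⟩
      · have h1 : ∀ j, ((if ∃ i i', D j i i' ≠ 0 then a j else 0 : ℕ) : ℤ) * D j i i' =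
            (a j : ℤ) * u j i * e i' - (a j : ℤ) * u j i' * e i := by
          intro j
          by_cases h : ∃ i i', D j i i' ≠ 0
          · rw [if_pos h, hD]
            ring
          · rw [if_neg h]
            push Not at h
            have h2 := h i i'
            rw [hD] at h2
            simp only [Nat.cast_zero, zero_mul]
            linear_combination (-(a j : ℤ)) * h2
        rw [Finset.sum_congr rfl fun j _ => h1 j, Finset.sum_sub_distrib, ← Finset.sum_mul,
          ← Finset.sum_mul, hsum i, hsum i']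
        ring
  obtain ⟨S, hS, hSmin⟩ := Finset.exists_min_image (Finset.univ.filter fun S => CIR_P D S)
    Finset.card (by obtain ⟨S, hS⟩ := hex; exact ⟨S, Finset.mem_filter.mpr ⟨Finset.mem_univ _, hS⟩⟩)
  have hmin : ∀ S', CIR_P D S' → S.card ≤ S'.card := fun S' h =>
    hSmin S' (Finset.mem_filter.mpr ⟨Finset.mem_univ _, h⟩)
  obtain ⟨hSne, hA, b, hb, hs⟩ := (Finset.mem_filter.mp hS).2
  obtain ⟨N, hN⟩ : ∃ N, S.card = N + 1 := ⟨S.card - 1, by
    have := Finset.card_pos.mpr hSne
    omega⟩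
  let σ : Fin (N + 1) ≃ S := (finCongr hN.symm).trans S.equivFin.symm
  let J : Fin (N + 1) → Fin r := fun k => (σ k : Fin r)
  have hJS : ∀ k, J k ∈ S := fun k => (σ k).2
  have hJinj : Function.Injective J := fun k l h => σ.injective (Subtype.ext h)
  have hJsum : ∀ f : Fin r → ℤ, (∀ j, j ∉ S → f j = 0) → ∑ j, f j = ∑ k, f (J k) := by
    intro f hf
    rw [← Finset.sum_subset (Finset.subset_univ S) fun j _ hj => hf j hj]
    rw [← Finset.sum_coe_sort S f]
    exact (Equiv.sum_comp σ (fun x : S => f x)).symm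
  -- `N ≥ 1`
  have hN1 : 1 ≤ N := by
    by_contra h
    have hN0 : N = 0 := by omega
    subst hN0
    obtain ⟨i, i', hii⟩ := hA (J 0) (hJS 0)
    have h1 := hs i i'
    rw [hJsum (fun j => (b j : ℤ) * D j i i') (fun j hj => by
      have : b j = 0 := by
        by_contra h
        exact hj ((hb j).mp (Nat.pos_of_ne_zero h))
      simp only [this, Nat.cast_zero, zero_mul])] at h1
    rw [Fin.sum_univ_one] at h1
    rcases mul_eq_zero.mp h1 with h2 | h2
    · have := (hb (J 0)).mpr (hJS 0)
      have h3 : b (J 0) = 0 := by exact_mod_cast h2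
      omega
    · exact hii h2
  -- division by the gcd
  let g : ℕ := Finset.univ.gcd fun k => b (J k)
  have hbJ : ∀ k, 0 < b (J k) := fun k => (hb _).mpr (hJS k)
  have hg : 0 < g := by
    refine Nat.pos_of_ne_zero fun h => ?_
    have := (Finset.gcd_eq_zero_iff.mp h) 0 (Finset.mem_univ _)
    exact absurd this (hbJ 0).ne'
  have hdvd : ∀ k, g ∣ b (J k) := fun k => Finset.gcd_dvd (Finset.mem_univ k)
  have hmul : ∀ k, (g : ℤ) * ((b (J k) / g : ℕ) : ℤ) = (b (J k) : ℤ) := by
    intro k
    exact_mod_cast Nat.mul_div_cancel' (hdvd k)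
  obtain ⟨q, p, hq, hqp⟩ := hprop (fun i => ∑ k, ((b (J k) / g : ℕ) : ℤ) * u (J k) i) (by
    intro i i'
    have h1 := hs i i'
    rw [hJsum (fun j => (b j : ℤ) * D j i i') (fun j hj => by
      have : b j = 0 := by
        by_contra h
        exact hj ((hb j).mp (Nat.pos_of_ne_zero h))
      simp only [this, Nat.cast_zero, zero_mul])] at h1
    have h2 : (g : ℤ) * ((∑ k, ((b (J k) / g : ℕ) : ℤ) * u (J k) i) * e i' -
        (∑ k, ((b (J k) / g : ℕ) : ℤ) * u (J k) i') * e i) =
        ∑ k, (b (J k) : ℤ) * D (J k) i i' := by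
      rw [Finset.sum_mul, Finset.sum_mul, ← Finset.sum_sub_distrib, Finset.mul_sum]
      refine Finset.sum_congr rfl fun k _ => ?_
      rw [← hmul k, hD]
      ring
    rw [h1] at h2
    exact (mul_eq_zero.mp h2).resolve_left (by exact_mod_cast hg.ne'))
  refine ⟨N, J, fun k => b (J k) / g, q, p, hN1, hq, ?_, ?_, hqp, ?_⟩
  · intro k
    exact Nat.div_pos (Nat.le_of_dvd (hbJ k) (hdvd k)) hg
  · exact Finset.gcd_div_eq_one (Finset.mem_univ (0 : Fin (N + 1))) (hbJ 0).ne'
  · -- independence
    unfold LI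
    rw [← LinearIndependent.iff_fractionRing ℤ ℚ, Fintype.linearIndependent_iff]
    intro c hc
    have hc' : ∀ i, c none * e i + ∑ j : Fin N, c (some j) * u (J j.succ) i = 0 := by
      intro i
      have h1 := congrFun hc i
      rw [Finset.sum_apply, Fintype.sum_option] at h1
      simp only [Pi.smul_apply, fam, zsmul_eq_mul, Pi.zero_apply] at h1
      exact_mod_cast h1
    let c2 : Fin r → ℤ := fun x => ∑ j : Fin N, if J j.succ = x then c (some j) else 0
    have hc2J : ∀ j : Fin N, c2 (J j.succ) = c (some j) := by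
      intro j
      have h1 : ∀ l : Fin N, (if J l.succ = J j.succ then c (some l) else 0) =
          if l = j then c (some l) else 0 := by
        intro l
        by_cases h : l = j
        · rw [if_pos h, if_pos (by rw [h])]
        · rw [if_neg h, if_neg (fun h' => h (Fin.succ_injective _ (hJinj h')))]
      show (∑ l : Fin N, if J l.succ = J j.succ then c (some l) else 0) = _
      rw [Finset.sum_congr rfl fun l _ => h1 l, Finset.sum_ite_eq' Finset.univ j,
        if_pos (Finset.mem_univ _)]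
    have hc20 : c2 (J 0) = 0 := by
      refine Finset.sum_eq_zero fun j _ => ?_
      rw [if_neg]
      intro h
      exact absurd (hJinj h) (Fin.succ_ne_zero j)
    have hc2S : ∀ x, c2 x ≠ 0 → x ∈ S := by
      intro x hx
      by_contra hxS
      refine hx (Finset.sum_eq_zero fun j _ => ?_)
      rw [if_neg]
      rintro rfl
      exact hxS (hJS _)
    have hc2s : ∀ i i', ∑ x, c2 x * D x i i' = 0 := by
      intro i i'
      have h1 : ∑ x, c2 x * D x i i' = ∑ j : Fin N, c (some j) * D (J j.succ) i i' := by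
        have h2 : ∀ x, c2 x * D x i i' =
            ∑ j : Fin N, if J j.succ = x then c (some j) * D x i i' else 0 := by
          intro x
          show (∑ j : Fin N, if J j.succ = x then c (some j) else 0) * D x i i' = _
          rw [Finset.sum_mul]
          refine Finset.sum_congr rfl fun j _ => ?_
          rw [ite_mul, zero_mul]
        rw [Finset.sum_congr rfl fun x _ => h2 x, Finset.sum_comm]
        refine Finset.sum_congr rfl fun j _ => ?_
        rw [Finset.sum_ite_eq Finset.univ (J j.succ), if_pos (Finset.mem_univ _)]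
      rw [h1]
      have h3 := hc' i
      have h4 := hc' i'
      have h5 : ∑ j : Fin N, c (some j) * D (J j.succ) i i' =
          (∑ j : Fin N, c (some j) * u (J j.succ) i) * e i' -
          (∑ j : Fin N, c (some j) * u (J j.succ) i') * e i := by
        rw [Finset.sum_mul, Finset.sum_mul, ← Finset.sum_sub_distrib]
        refine Finset.sum_congr rfl fun j _ => ?_
        rw [hD]
        ring
      rw [h5]
      linear_combination e i' * h3 - e i * h4
    have hle := CIR_min D S b hA hb hs hmin c2 hc2S (J 0) (hJS 0) hc20 hc2s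
    have hge := CIR_min D S b hA hb hs hmin (fun x => -c2 x)
      (fun x hx => hc2S x (fun h => hx (by rw [h, neg_zero]))) (J 0) (hJS 0)
      (by rw [hc20, neg_zero]) (fun i i' => by
        have h1 : ∀ x, -c2 x * D x i i' = -(c2 x * D x i i') := fun x => by ring
        rw [Finset.sum_congr rfl fun x _ => h1 x, Finset.sum_neg_distrib, hc2s, neg_zero])
    have hsome : ∀ j : Fin N, c (some j) = 0 := by
      intro j
      have h1 := hle (J j.succ)
      have h2 := hge (J j.succ)
      rw [hc2J] at h1 h2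
      omega
    intro o
    cases o with
    | some j => exact hsome j
    | none =>
      have h1 := hc' k₀
      rw [Finset.sum_eq_zero fun j _ => by rw [hsome j, zero_mul], add_zero] at h1
      exact (mul_eq_zero.mp h1).resolve_right hk₀

end Pool.TW
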