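import Pool.Agent.Work.MP_501976_tw.Interface

/-!
# MP_501976_ag, THEOREM TW: the assembly
-/

set_option autoImplicit false

universe u v

open MvPolynomial MP501976

namespace Pool.TW

theorem FIN_span {d : ℕ} {ι : Type} [Fintype ι] (hc : Fintype.card ι = d) (M : ι → Fin d → ℤ) (hM : LI M)
    (c : Fin d → ℤ) (h : ∀ o, ∑ i, c i * M o i = 0) : c = 0 := by
  have h1 : ⊤ ≤ Submodule.span ℚ (Set.range (fun o : ι => fun i : Fin d => ((M o i : ℤ) : ℚ))) :=
    (LinearIndependent.span_eq_top_of_card_eq_finrank' hM (by rw [hc]; simp)).ge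
  let φ : (Fin d → ℚ) →ₗ[ℚ] ℚ := Fintype.linearCombination ℚ (fun i => (c i : ℚ))
  have h2 : ∀ w : Fin d → ℚ, φ w = 0 := by
    intro w
    have hw : w ∈ Submodule.span ℚ (Set.range (fun o : ι => fun i : Fin d => ((M o i : ℤ) : ℚ))) := h1 trivial
    induction hw using Submodule.span_induction with
    | mem w hw =>
      obtain ⟨o, rfl⟩ := hw
      have := h o
      simp only [φ, Fintype.linearCombination_apply, smul_eq_mul]
      have h3 : ((∑ i, c i * M o i : ℤ) : ℚ) = 0 := by rw [this]; rfl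
      push_cast at h3
      rw [← h3]
      exact Finset.sum_congr rfl fun i _ => mul_comm _ _
    | zero => exact map_zero φ
    | add a b _ _ ha hb => rw [map_add, ha, hb, add_zero]
    | smul r a _ ha => rw [map_smul, ha, smul_zero]
  funext i
  have h3 := h2 (Pi.single i 1)
  simp only [φ, Fintype.linearCombination_apply, smul_eq_mul] at h3
  rw [Finset.sum_eq_single i (fun j _ hj => by rw [Pi.single_eq_of_ne hj, zero_mul])
    (fun h => absurd (Finset.mem_univ i) h)] at h3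
  rw [Pi.single_eq_same, one_mul] at h3
  exact_mod_cast h3

/-- the image of `L` is generated by the images of the `x i` -/
theorem FIN_mem {k : Type v} [Field k] {L Ω : Type u} [Field L] [Field Ω] [Algebra k L] [Algebra k Ω] (φ : L →ₐ[k] Ω)
    {ι : Type} (x : ι → L) (hgen : IntermediateField.adjoin k (Set.range x) = ⊤) (F : IntermediateField k Ω)
    (h : ∀ i, φ (x i) ∈ F) (a : L) : φ a ∈ F := by
  have h1 : IntermediateField.adjoin k (Set.range x) ≤ F.comap φ := by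
    rw [IntermediateField.adjoin_le_iff]
    rintro _ ⟨i, rfl⟩
    exact h i
  have h2 : a ∈ IntermediateField.adjoin k (Set.range x) := by rw [hgen]; trivial
  exact h1 h2

/-- monomials -/
theorem FIN_mono {Ω : Type u} [Field Ω] {ι : Type} [Fintype ι] {d : ℕ} (t : ι → Ω) (ht : ∀ o, t o ≠ 0)
    (M : ι → Fin d → ℤ) (X : Fin d → Ω) (hX : ∀ i, X i = ∏ o, t o ^ M o i) (m : Fin d → ℤ) :
    ∏ i, X i ^ m i = ∏ o, t o ^ (∑ i, m i * M o i) := by
  have h1 : ∀ i, X i ^ m i = ∏ o, t o ^ (m i * M o i) := by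
    intro i
    rw [hX i, ← Finset.prod_zpow]
    exact Finset.prod_congr rfl fun o _ => by rw [← zpow_mul, mul_comm]
  rw [Finset.prod_congr rfl fun i _ => h1 i, Finset.prod_comm]
  refine Finset.prod_congr rfl fun o _ => ?_
  have : ∀ s : Finset (Fin d), ∏ i ∈ s, t o ^ (m i * M o i) = t o ^ (∑ i ∈ s, m i * M o i) := by
    intro s
    classical
    induction s using Finset.induction_on with
    | empty => simp
    | insert a s ha ih => rw [Finset.prod_insert ha, Finset.sum_insert ha, ih, zpow_add₀ (ht o)]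
  exact this _

theorem FIN_zsum {Ω : Type u} [Field Ω] {μ : Ω} (hμ : μ ≠ 0) {ι : Type} (s : Finset ι) (f : ι → ℤ) :
    ∏ i ∈ s, μ ^ f i = μ ^ (∑ i ∈ s, f i) := by
  classical
  induction s using Finset.induction_on with
  | empty => simp
  | insert a s ha ih => rw [Finset.prod_insert ha, Finset.sum_insert ha, ih, zpow_add₀ hμ]

theorem FIN_alg {L₀ Ω : Type u} [Field L₀] [Field Ω] [Algebra L₀ Ω] {d : ℕ} (X : Fin d → Ω)
    (hX : ∀ i, IsAlgebraic L₀ (X i)) {t : Ω} {n : ℕ} (hn : 0 < n) (c : Fin d → ℤ) (h : t ^ n = ∏ i, X i ^ c i) :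
    IsAlgebraic L₀ t := by
  have h1 : ∀ a : Ω, IsAlgebraic L₀ a → a ∈ algebraicClosure L₀ Ω := fun a ha => mem_algebraicClosure_iff.2 ha
  have h2 : t ^ n ∈ algebraicClosure L₀ Ω := by
    rw [h]
    exact prod_mem fun i _ => zpow_mem (h1 _ (hX i)) _
  exact IsAlgebraic.of_pow hn (mem_algebraicClosure_iff.1 h2)

theorem FIN_one {κ : Type u} [Field κ] {N : ℕ} (wt : Fin N → ℕ) :
    MvPolynomial.weightedTotalDegree wt (1 : MvPolynomial (Fin N) κ) ≤ 0 := by
  unfold MvPolynomial.weightedTotalDegree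
  rw [Finset.sup_le_iff]
  intro b hb
  have : b = 0 := by
    rw [MvPolynomial.mem_support_iff, MvPolynomial.coeff_one] at hb
    by_contra h
    exact hb (if_neg (Ne.symm h))
  rw [this, map_zero]

section core

variable {k : Type v} [Field k] [Algebra ℂ k] [Algebra.EssFiniteType ℂ k] {L : Type u} [Field L] [Algebra k L]
  {Ω Ω₁ : Type u} [Field Ω] [Field Ω₁] [Algebra L Ω] [Algebra k Ω] [IsScalarTower k L Ω]
  [Algebra Ω Ω₁] [Algebra ℂ Ω₁] [Algebra k Ω₁] [IsScalarTower k Ω Ω₁] [IsScalarTower ℂ k Ω₁]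
  {L₀ : Type u} [Field L₀] [Algebra ℂ L₀] [Algebra L₀ L] [Algebra L₀ Ω] [IsScalarTower L₀ L Ω] [Algebra L₀ Ω₁]
  [IsScalarTower L₀ Ω Ω₁] [IsScalarTower ℂ L₀ Ω₁]

/-- the embedding of `L` -/
noncomputable def FIN_phi (k : Type v) [Field k] (L Ω Ω₁ : Type u) [Field L] [Field Ω] [Field Ω₁] [Algebra k L] [Algebra L Ω] [Algebra k Ω]
    [IsScalarTower k L Ω] [Algebra Ω Ω₁] [Algebra k Ω₁] [IsScalarTower k Ω Ω₁] : L →ₐ[k] Ω₁ :=
  (IsScalarTower.toAlgHom k Ω Ω₁).comp (IsScalarTower.toAlgHom k L Ω)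

theorem FIN_phi_apply (a : L) : FIN_phi k L Ω Ω₁ a = algebraMap Ω Ω₁ (algebraMap L Ω a) := rfl

theorem FIN_l0 {d : ℕ} (x : Fin d → L) (hgen : IntermediateField.adjoin k (Set.range x) = ⊤) (F : IntermediateField k Ω₁)
    (h : ∀ i, algebraMap Ω Ω₁ (algebraMap L Ω (x i)) ∈ F) (a : L₀) : algebraMap L₀ Ω₁ a ∈ F := by
  have h1 := FIN_mem (FIN_phi k L Ω Ω₁) x hgen F h (algebraMap L₀ L a)
  rw [FIN_phi_apply, ← IsScalarTower.algebraMap_apply L₀ L Ω, ← IsScalarTower.algebraMap_apply L₀ Ω Ω₁] at h1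
  exact h1

/-- **case 2**: the elements without `ξ` are dependent -/
theorem FIN_case2 (hKC : S_KC.{u, v}) (hIND : S_IND.{u, v}) (hTR : S_TR.{u, v}) {d : ℕ} (x : Fin (d + 1) → L)
    (hgen : IntermediateField.adjoin k (Set.range x) = ⊤) (htr : (d : Cardinal) ≤ Algebra.trdeg k L)
    {ι : Type} [Fintype ι] (hc : Fintype.card ι = d) (t : ι → Ω) (ξ : Ω) (M : Option ι → Fin (d + 1) → ℤ)
    (hx : ∀ i, algebraMap L Ω (x i) = ξ ^ M none i * ∏ o, t o ^ M (some o) i) (hξ : IsAlgebraic L₀ ξ) (hξ0 : ξ ≠ 0)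
    (μ : Ω₁) (hμ : Transcendental Ω μ) (hind : ¬ AlgebraicIndependent k t) : SweptOutByEllipticCurves L₀ := by
  have h1 : Transcendental (IntermediateField.adjoin k (Set.range t)) ξ := by
    refine hTR k L Ω ι t ξ (by rw [hc]; exact htr) ?_ hind
    intro a
    have := FIN_mem (IsScalarTower.toAlgHom k L Ω) x hgen (IntermediateField.adjoin k (Set.range t ∪ {ξ})) ?_ a
    · exact this
    · intro i
      change algebraMap L Ω (x i) ∈ _
      rw [hx i]
      refine mul_mem (zpow_mem ?_ _) (prod_mem fun o _ => zpow_mem ?_ _)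
      · exact IntermediateField.subset_adjoin _ _ (Or.inr rfl)
      · exact IntermediateField.subset_adjoin _ _ (Or.inl ⟨o, rfl⟩)
  have h2 : AlgebraicIndependent (IntermediateField.adjoin k (Set.range t)) (fun _ : Fin 1 => ξ) := by
    rw [algebraicIndependent_unique_type_iff]
    exact h1
  have h3 := hIND k Ω Ω₁ μ hμ (Set.range t) 1 (fun _ => ξ) h2 (fun _ => 1) (by norm_num)
  have hμ0 : μ ≠ 0 := by
    rintro rfl
    exact hμ isAlgebraic_zero
  have hinj : Function.Injective (algebraMap Ω Ω₁) := (algebraMap Ω Ω₁).injective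
  refine hKC k Ω₁ (algebraMap Ω Ω₁ '' Set.range t) ((Set.finite_range t).image _) 1 le_rfl _ h3 (fun _ => 1)
    (fun _ => by norm_num) (by decide) 1 ((FIN_one _).trans (Nat.zero_le _)) 1 (by rw [map_one, one_pow]) one_ne_zero L₀ ?_ ?_
  · refine FIN_l0 (Ω := Ω) x hgen _ ?_
    intro i
    rw [hx i, map_mul, map_zpow₀, map_prod]
    refine mul_mem (zpow_mem ?_ _) (prod_mem fun o _ => ?_)
    · have e : algebraMap Ω Ω₁ ξ = (algebraMap Ω Ω₁ ξ * μ ^ 1) / μ ^ 1 := by
        rw [mul_div_assoc, div_self (pow_ne_zero 1 hμ0), mul_one]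
      have h5 := div_mem (S := IntermediateField k Ω₁) (H := IntermediateField.adjoin k (algebraMap Ω Ω₁ '' Set.range t ∪
        Set.range (Fin.cons (μ ^ 1) (fun _ : Fin 1 => algebraMap Ω Ω₁ ξ * μ ^ 1) : Fin (1 + 1) → Ω₁) ∪ {1}))
        (IntermediateField.subset_adjoin k _ (Or.inl (Or.inr ⟨(Fin.succ 0), Fin.cons_succ _ _ _⟩)))
        (IntermediateField.subset_adjoin k _ (Or.inl (Or.inr ⟨0, Fin.cons_zero _ _⟩)))
      exact (congrArg (fun z : Ω₁ => z ∈ IntermediateField.adjoin k _) e).mpr h5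
    · rw [map_zpow₀]
      refine zpow_mem ?_ _
      exact IntermediateField.subset_adjoin _ _ (Or.inl (Or.inl ⟨t o, ⟨o, rfl⟩, rfl⟩))
  · intro i
    refine Fin.cases ?_ (fun j => ?_) i
    · have e : (Fin.cons (μ ^ 1) (fun _ : Fin 1 => algebraMap Ω Ω₁ ξ * μ ^ 1) : Fin (1 + 1) → Ω₁) 0 ^ 1 /
          (Fin.cons (μ ^ 1) (fun _ : Fin 1 => algebraMap Ω Ω₁ ξ * μ ^ 1) : Fin (1 + 1) → Ω₁) 0 ^ 1 = 1 := by
        rw [Fin.cons_zero, pow_one, pow_one, div_self hμ0]
      rw [e]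
      exact isAlgebraic_one
    · have e : (Fin.cons (μ ^ 1) (fun _ : Fin 1 => algebraMap Ω Ω₁ ξ * μ ^ 1) : Fin (1 + 1) → Ω₁) j.succ ^ 1 /
          (Fin.cons (μ ^ 1) (fun _ : Fin 1 => algebraMap Ω Ω₁ ξ * μ ^ 1) : Fin (1 + 1) → Ω₁) 0 ^ 1 = algebraMap Ω Ω₁ ξ := by
        rw [Fin.cons_zero, Fin.cons_succ]
        simp only [pow_one]
        rw [mul_div_assoc, div_self hμ0, mul_one]
      rw [e]
      exact hξ.algebraMap

/-- the data of case 1 -/
theorem FIN_key {d N R : ℕ} (X : Fin d → Ω₁) (ξ : Ω₁) (y : Fin N → Ω₁) (z : Fin R → Ω₁) (hξ : ξ ≠ 0) (hy : ∀ j, y j ≠ 0)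
    (hz : ∀ l, z l ≠ 0) (e : Fin d → ℤ) (U : Fin (N + 1) → Fin d → ℤ) (v : Fin R → Fin d → ℤ)
    (hX : ∀ i, X i = ξ ^ e i * ((∏ j, y j ^ U j.succ i) * ∏ l, z l ^ v l i)) (μ : Ω₁) (hμ : μ ≠ 0) (b : Fin (N + 1) → ℕ)
    (q : ℕ) (p : ℤ) (hrel : ∀ i, (q : ℤ) * ∑ j, (b j : ℤ) * U j i = p * e i) (m : Fin d → ℤ) :
    ∏ i, X i ^ m i = (ξ * μ ^ (-p)) ^ (∑ i, m i * e i) *
      ((∏ j, (Fin.cons (μ ^ (q * b 0)) (fun j => y j * μ ^ (q * b j.succ)) : Fin (N + 1) → Ω₁) j ^ (∑ i, m i * U j i)) *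
        ∏ l, z l ^ (∑ i, m i * v l i)) := by
  -- the product as a product over `Option (Fin N ⊕ Fin R)`
  have h1 := FIN_mono (fun o : Option (Fin N ⊕ Fin R) => o.elim ξ (Sum.elim y z)) (by
      rintro (_ | j | l)
      · exact hξ
      · exact hy j
      · exact hz l)
    (fun o => o.elim e (Sum.elim (fun j => U j.succ) v)) X (by
      intro i
      rw [hX i, Fintype.prod_option, Fintype.prod_sum_type]
      rfl) m
  rw [h1, Fintype.prod_option, Fintype.prod_sum_type]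
  simp only [Option.elim, Sum.elim_inl, Sum.elim_inr]
  rw [mul_zpow, ← zpow_mul, Fin.prod_univ_succ]
  simp only [Fin.cons_zero, Fin.cons_succ]
  have h2 : ∀ j : Fin N, (y j * μ ^ (q * b j.succ)) ^ (∑ i, m i * U j.succ i) =
      y j ^ (∑ i, m i * U j.succ i) * μ ^ (((q * b j.succ : ℕ) : ℤ) * ∑ i, m i * U j.succ i) := by
    intro j
    rw [mul_zpow, ← zpow_natCast μ, ← zpow_mul]
  rw [Finset.prod_congr rfl fun j _ => h2 j, Finset.prod_mul_distrib, ← zpow_natCast μ (q * b 0), ← zpow_mul,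
    FIN_zsum hμ]
  have h3 : μ ^ (-p * ∑ i, m i * e i) * (μ ^ (((q * b 0 : ℕ) : ℤ) * ∑ i, m i * U 0 i) *
      μ ^ (∑ j : Fin N, ((q * b j.succ : ℕ) : ℤ) * ∑ i, m i * U j.succ i)) = 1 := by
    rw [← zpow_add₀ hμ, ← zpow_add₀ hμ]
    have h4 : (((q * b 0 : ℕ) : ℤ) * ∑ i, m i * U 0 i) + ∑ j : Fin N, ((q * b j.succ : ℕ) : ℤ) * ∑ i, m i * U j.succ i =
        p * ∑ i, m i * e i := by
      rw [← Fin.sum_univ_succ (fun j : Fin (N + 1) => ((q * b j : ℕ) : ℤ) * ∑ i, m i * U j i)]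
      have h5 : ∀ i, m i * (p * e i) = ∑ j : Fin (N + 1), ((q * b j : ℕ) : ℤ) * (m i * U j i) := by
        intro i
        rw [← hrel i, Finset.mul_sum, Finset.mul_sum]
        exact Finset.sum_congr rfl fun j _ => by push_cast; ring
      rw [Finset.mul_sum, Finset.sum_congr rfl fun i _ => show p * (m i * e i) = m i * (p * e i) by ring,
        Finset.sum_congr rfl fun i _ => h5 i, Finset.sum_comm]
      exact Finset.sum_congr rfl fun j _ => by rw [Finset.mul_sum]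
    rw [h4]
    have : -p * ∑ i, m i * e i + p * ∑ i, m i * e i = 0 := by ring
    rw [this, zpow_zero]
  calc _ = ξ ^ (∑ i, m i * e i) * ((∏ j : Fin N, y j ^ (∑ i, m i * U j.succ i)) * ∏ l, z l ^ (∑ i, m i * v l i)) * 1 := by
        rw [mul_one]
    _ = _ := by
        rw [← h3]
        ring

/-- the partial sums of a nonzero polynomial do not all vanish -/
theorem FIN_nz (hLAU : S_LAU.{u, v}) {d N R : ℕ} (hc : N + R = d) (y : Fin N → Ω) (z : Fin R → Ω)
    (hind : AlgebraicIndependent k (Sum.elim y z : Fin N ⊕ Fin R → Ω)) (e : Fin (d + 1) → ℤ)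
    (U : Fin N → Fin (d + 1) → ℤ) (v : Fin R → Fin (d + 1) → ℤ) (hLI : LI (ext (fam e U) v))
    (f : (Fin (d + 1) → ℤ) →₀ k)
    (h : ∀ a : ℤ, ∑ m ∈ f.support with ∑ i, m i * e i = a, algebraMap k Ω (f m) *
      ((∏ j, y j ^ (∑ i, m i * U j i)) * ∏ l, z l ^ (∑ i, m i * v l i)) = 0) : f = 0 := by
  classical
  have hcard : Fintype.card (Option (Fin N ⊕ Fin R)) = d + 1 := by
    rw [Fintype.card_option, Fintype.card_sum, Fintype.card_fin, Fintype.card_fin, hc]
  let φ : (Fin (d + 1) → ℤ) → (Fin N ⊕ Fin R → ℤ) := fun m o => ∑ i, m i * ext (fam e U) v (some o) i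
  ext m0
  rw [Finsupp.zero_apply]
  by_contra hm0
  set a : ℤ := ∑ i, m0 i * e i with ha
  let g : (Fin (d + 1) → ℤ) →₀ k := f.filter (fun m => ∑ i, m i * e i = a)
  have hg : (g.mapDomain φ).sum (fun m c => algebraMap k Ω c * ∏ o, (Sum.elim y z : Fin N ⊕ Fin R → Ω) o ^ m o) = 0 := by
    rw [Finsupp.sum_mapDomain_index (fun _ => by rw [map_zero, zero_mul]) (fun _ _ _ => by rw [map_add, add_mul])]
    rw [← h a, Finsupp.sum, Finsupp.support_filter]
    refine Finset.sum_congr rfl fun m hm => ?_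
    have hgm : g m = f m := Finsupp.filter_apply_pos (fun m => ∑ i, m i * e i = a) f (Finset.mem_filter.1 hm).2
    rw [hgm, Fintype.prod_sum_type]
    rfl
  have hg0 := hLAU k Ω (Fin N ⊕ Fin R) (Sum.elim y z) hind _ hg
  have hinj : Set.InjOn φ {m | ∑ i, m i * e i = a} := by
    intro m hm m' hm' hφ
    have h1 := FIN_span hcard (ext (fam e U) v) hLI (m - m') (by
      rintro (_ | o)
      · change ∑ i, (m - m') i * e i = 0
        simp only [Pi.sub_apply, sub_mul, Finset.sum_sub_distrib]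
        rw [hm, hm', sub_self]
      · have := congrFun hφ o
        simp only [Pi.sub_apply, sub_mul, Finset.sum_sub_distrib]
        exact sub_eq_zero.2 this)
    exact sub_eq_zero.1 h1
  have hg1 : g = 0 := by
    apply Finsupp.mapDomain_injOn _ hinj
    · intro m hm
      have hm' : m ∈ g.support := hm
      rw [Finsupp.support_filter] at hm'
      exact (Finset.mem_filter.1 hm').2
    · intro m hm
      exact absurd hm (by simp)
    · rw [hg0, Finsupp.mapDomain_zero]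
  have h2 : g m0 = f m0 := Finsupp.filter_apply_pos _ _ rfl
  rw [hg1, Finsupp.zero_apply] at h2
  exact hm0 h2.symm

/-- **case 1**: the elements without `ξ` are independent -/
theorem FIN_case1 (hLAU : S_LAU.{u, v}) (hKC : S_KC.{u, v}) (hPOL : S_POL.{u, u}) (hSUM : S_SUM.{u, v}) (hIND : S_IND.{u, v})
    {d N R : ℕ} (hN : 1 ≤ N) (hc : N + R = d) (x : Fin (d + 1) → L)
    (hgen : IntermediateField.adjoin k (Set.range x) = ⊤) (f : (Fin (d + 1) → ℤ) →₀ k) (hf : f ≠ 0)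
    (hfx : f.sum (fun m c => algebraMap k L c * ∏ i, x i ^ m i) = 0)
    (ξ : Ω) (y : Fin N → Ω) (z : Fin R → Ω) (hξ0 : ξ ≠ 0) (hy0 : ∀ j, y j ≠ 0) (hz0 : ∀ l, z l ≠ 0)
    (hyalg : ∀ j, IsAlgebraic L₀ (y j))
    (e : Fin (d + 1) → ℤ) (U : Fin (N + 1) → Fin (d + 1) → ℤ) (v : Fin R → Fin (d + 1) → ℤ)
    (hLI : LI (ext (fam e (fun j : Fin N => U j.succ)) v))
    (hx : ∀ i, algebraMap L Ω (x i) = ξ ^ e i * ((∏ j, y j ^ U j.succ i) * ∏ l, z l ^ v l i))
    (b : Fin (N + 1) → ℕ) (q : ℕ) (p : ℤ) (hq : 0 < q) (hb : ∀ j, 0 < b j) (hgcd : Finset.univ.gcd b = 1)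
    (hrel : ∀ i, (q : ℤ) * ∑ j, (b j : ℤ) * U j i = p * e i)
    (hfu : ∀ m ∈ f.support, ∀ j, -1 ≤ ∑ i, m i * U j i) (hfe : ∀ m ∈ f.support, |∑ i, m i * e i| ≤ 1)
    (μ : Ω₁) (hμ : Transcendental Ω μ) (hind : AlgebraicIndependent k (Sum.elim y z : Fin N ⊕ Fin R → Ω)) :
    SweptOutByEllipticCurves L₀ := by
  classical
  have hμ0 : μ ≠ 0 := by
    rintro rfl
    exact hμ isAlgebraic_zero
  have hinj : Function.Injective (algebraMap Ω Ω₁) := (algebraMap Ω Ω₁).injective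
  have hch : CharZero Ω₁ := charZero_of_injective_algebraMap (algebraMap ℂ Ω₁).injective
  have hy1 := hSUM k Ω N R y z hind
  have hY := hIND k Ω Ω₁ μ hμ (Set.range z) N y hy1 (fun j => q * b j) (Nat.mul_pos hq (hb 0))
  set Z : Set Ω₁ := algebraMap Ω Ω₁ '' Set.range z with hZ
  set Y : Fin (N + 1) → Ω₁ := Fin.cons (μ ^ (q * b 0)) (fun j => algebraMap Ω Ω₁ (y j) * μ ^ (q * b j.succ)) with hYd
  have hY0 : ∀ j, Y j ≠ 0 := by
    intro j
    refine Fin.cases ?_ (fun j => ?_) j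
    · exact pow_ne_zero _ hμ0
    · exact mul_ne_zero ((map_ne_zero_iff _ hinj).2 (hy0 j)) (pow_ne_zero _ hμ0)
  set ξ1 : Ω₁ := algebraMap Ω Ω₁ ξ * μ ^ (-p) with hξ1
  have hξ10 : ξ1 ≠ 0 := mul_ne_zero ((map_ne_zero_iff _ hinj).2 hξ0) (zpow_ne_zero _ hμ0)
  -- the monomials
  have key := FIN_key (fun i => algebraMap Ω Ω₁ (algebraMap L Ω (x i))) (algebraMap Ω Ω₁ ξ)
    (fun j => algebraMap Ω Ω₁ (y j)) (fun l => algebraMap Ω Ω₁ (z l)) ((map_ne_zero_iff _ hinj).2 hξ0)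
    (fun j => (map_ne_zero_iff _ hinj).2 (hy0 j)) (fun l => (map_ne_zero_iff _ hinj).2 (hz0 l)) e U v
    (by
      intro i
      rw [hx i, map_mul, map_zpow₀, map_mul, map_prod, map_prod]
      simp only [map_zpow₀]) μ hμ0 b q p hrel
  have hdeg : ∀ m : Fin (d + 1) → ℤ, (q : ℤ) * ∑ j, (b j : ℤ) * ∑ i, m i * U j i = p * ∑ i, m i * e i := by
    intro m
    have h5 : ∀ i, m i * (p * e i) = ∑ j : Fin (N + 1), (q : ℤ) * ((b j : ℤ) * (m i * U j i)) := by
      intro i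
      rw [← hrel i, Finset.mul_sum, Finset.mul_sum]
      exact Finset.sum_congr rfl fun j _ => by ring
    rw [Finset.mul_sum, Finset.mul_sum, Finset.sum_congr rfl fun i _ => show p * (m i * e i) = m i * (p * e i) by ring,
      Finset.sum_congr rfl fun i _ => h5 i, Finset.sum_comm]
    exact Finset.sum_congr rfl fun j _ => by rw [Finset.mul_sum, Finset.mul_sum]
  let z1 : Fin R → IntermediateField.adjoin k Z := fun l =>
    ⟨algebraMap Ω Ω₁ (z l), IntermediateField.subset_adjoin k Z ⟨z l, ⟨l, rfl⟩, rfl⟩⟩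
  let c : (Fin (d + 1) → ℤ) → IntermediateField.adjoin k Z := fun m =>
    algebraMap k (IntermediateField.adjoin k Z) (f m) * ∏ l, z1 l ^ (∑ i, m i * v l i)
  have hcm : ∀ m, algebraMap (IntermediateField.adjoin k Z) Ω₁ (c m) =
      algebraMap k Ω₁ (f m) * ∏ l, algebraMap Ω Ω₁ (z l) ^ (∑ i, m i * v l i) := by
    intro m
    rw [map_mul, map_prod, ← IsScalarTower.algebraMap_apply k (IntermediateField.adjoin k Z) Ω₁]
    refine congrArg₂ (· * ·) rfl (Finset.prod_congr rfl fun l _ => ?_)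
    exact map_zpow₀ _ _ _
  have hterm : ∀ m, algebraMap (IntermediateField.adjoin k Z) Ω₁ (c m) * ξ1 ^ (∑ i, m i * e i) *
      ∏ j, Y j ^ (∑ i, m i * U j i) = FIN_phi k L Ω Ω₁ (algebraMap k L (f m) * ∏ i, x i ^ m i) := by
    intro m
    have h1 : ∏ i, (FIN_phi k L Ω Ω₁) (x i ^ m i) = ∏ i, (algebraMap Ω Ω₁ (algebraMap L Ω (x i))) ^ m i :=
      Finset.prod_congr rfl fun i _ => map_zpow₀ _ _ _
    have h0 : FIN_phi k L Ω Ω₁ (algebraMap k L (f m) * ∏ i, x i ^ m i) =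
        algebraMap k Ω₁ (f m) * ∏ i, (algebraMap Ω Ω₁ (algebraMap L Ω (x i))) ^ m i := by
      rw [map_mul, map_prod, AlgHom.commutes, h1]
    rw [h0, key m, hcm]
    ring
  obtain ⟨D, w, hD, hw, hw0, hξm⟩ := hPOL (IntermediateField.adjoin k Z) Ω₁ (Fin (d + 1) → ℤ) f.support c
    (fun m => ∑ i, m i * e i) N (fun m j => ∑ i, m i * U j i) b q p hq hfe hfu (fun m _ => hdeg m) Y ξ1 hY0 hξ10
    (by
      rw [Finset.sum_congr rfl fun m _ => hterm m, ← map_sum]
      have : ∑ m ∈ f.support, algebraMap k L (f m) * ∏ i, x i ^ m i = 0 := hfx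
      rw [this, map_zero])
    (by
      by_contra hcon
      push Not at hcon
      apply hf
      apply FIN_nz (Ω := Ω) hLAU hc y z hind e (fun j : Fin N => U j.succ) v hLI f
      intro a
      have h1 := hcon a
      have h2 : ∀ m ∈ f.support.filter (fun m => ∑ i, m i * e i = a),
          (algebraMap (IntermediateField.adjoin k Z) Ω₁ (c m) * ∏ j, Y j ^ (∑ i, m i * U j i)) * ξ1 ^ a =
            algebraMap Ω Ω₁ (ξ ^ a * (algebraMap k Ω (f m) *
              ((∏ j, y j ^ (∑ i, m i * U j.succ i)) * ∏ l, z l ^ (∑ i, m i * v l i)))) := by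
        intro m hm
        have hma : ∑ i, m i * e i = a := (Finset.mem_filter.1 hm).2
        have h3 := hterm m
        rw [hma] at h3
        have h4 : FIN_phi k L Ω Ω₁ (algebraMap k L (f m) * ∏ i, x i ^ m i) =
            algebraMap Ω Ω₁ (algebraMap k Ω (f m) * ∏ i, (algebraMap L Ω (x i)) ^ m i) := by
          rw [FIN_phi_apply, map_mul (algebraMap L Ω), ← IsScalarTower.algebraMap_apply k L Ω, map_prod]
          simp only [map_zpow₀]
        have h5 := FIN_mono (fun o : Option (Fin N ⊕ Fin R) => o.elim ξ (Sum.elim y z)) (by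
            rintro (_ | j | l)
            · exact hξ0
            · exact hy0 j
            · exact hz0 l)
          (fun o => o.elim e (Sum.elim (fun j => U j.succ) v)) (fun i => algebraMap L Ω (x i)) (by
            intro i
            rw [hx i, Fintype.prod_option, Fintype.prod_sum_type]
            rfl) m
        rw [Fintype.prod_option, Fintype.prod_sum_type] at h5
        simp only [Option.elim, Sum.elim_inl, Sum.elim_inr] at h5
        rw [hma] at h5
        rw [h4, h5] at h3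
        rw [mul_right_comm, h3]
        congr 1
        ring
      have h6 : algebraMap Ω Ω₁ (ξ ^ a * ∑ m ∈ f.support with ∑ i, m i * e i = a, (algebraMap k Ω (f m) *
          ((∏ j, y j ^ (∑ i, m i * U j.succ i)) * ∏ l, z l ^ (∑ i, m i * v l i)))) = 0 := by
        rw [Finset.mul_sum, map_sum, ← Finset.sum_congr rfl h2, ← Finset.sum_mul, h1, zero_mul]
      rw [map_eq_zero_iff _ hinj] at h6
      exact (mul_eq_zero.1 h6).resolve_left (zpow_ne_zero _ hξ0))
  refine hKC k Ω₁ Z ((Set.finite_range z).image _) N hN Y hY b hb hgcd D hD w hw hw0 L₀ ?_ ?_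
  · refine FIN_l0 (Ω := Ω) x hgen _ ?_
    intro i
    have h1 := key (Pi.single i 1)
    have h2 : ∀ g : Fin (d + 1) → ℤ, ∑ i', (Pi.single i 1 : Fin (d + 1) → ℤ) i' * g i' = g i := by
      intro g
      rw [Finset.sum_eq_single i (fun j _ hj => by rw [Pi.single_eq_of_ne hj, zero_mul])
        (fun h => absurd (Finset.mem_univ i) h), Pi.single_eq_same, one_mul]
    rw [Finset.prod_eq_single i (fun j _ hj => by rw [Pi.single_eq_of_ne hj, zpow_zero])
      (fun h => absurd (Finset.mem_univ i) h), Pi.single_eq_same, zpow_one] at h1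
    simp only [h2] at h1
    rw [h1]
    have hξ2 : ξ1 ∈ IntermediateField.adjoin k (Z ∪ Set.range Y ∪ {w}) := by
      have h3 : ξ1 ∈ (IntermediateField.adjoin (IntermediateField.adjoin k Z) (Set.range Y ∪ {w})).restrictScalars k := hξm
      rw [IntermediateField.adjoin_adjoin_left, ← Set.union_assoc] at h3
      exact h3
    refine mul_mem (zpow_mem hξ2 _) (mul_mem (prod_mem fun j _ => zpow_mem ?_ _) (prod_mem fun l _ => zpow_mem ?_ _))
    · exact IntermediateField.subset_adjoin _ _ (Or.inl (Or.inr ⟨j, rfl⟩))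
    · exact IntermediateField.subset_adjoin _ _ (Or.inl (Or.inl ⟨z l, ⟨l, rfl⟩, rfl⟩))
  · intro j
    refine Fin.cases ?_ (fun j => ?_) j
    · rw [div_self (pow_ne_zero _ (hY0 0))]
      exact isAlgebraic_one
    · have h1 : Y j.succ ^ b 0 / Y 0 ^ b j.succ = algebraMap Ω Ω₁ (y j ^ b 0) := by
        rw [hYd, Fin.cons_succ, Fin.cons_zero, mul_pow, ← pow_mul, ← pow_mul, map_pow,
          show q * b 0 * b j.succ = q * b j.succ * b 0 by ring, mul_div_assoc, div_self (pow_ne_zero _ hμ0), mul_one]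
      rw [h1]
      exact ((hyalg j).pow _).algebraMap

end core

theorem p_FIN (hCIR : S_CIR) (hBAS : S_BAS) (hINV : S_INV.{u}) (hLAU : S_LAU.{u, v}) (hKC : S_KC.{u, v})
    (hPOL : S_POL.{u, u}) (hSUM : S_SUM.{u, v}) (hIND : S_IND.{u, v}) (hTR : S_TR.{u, v}) : S_FIN.{u, v} := by
  classical
  intro k _ _ _ L _ _ _ _ d x hx0 hgen htr f hf hfx r u a ha hau e he hfu hfe L₀ _ _ _ _ halg
  obtain ⟨N, J, b, q, p, hN, hq, hb, hgcd, hrel, hLI0⟩ := hCIR (d + 1) r u a ha hau e he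
  obtain ⟨R, v, hcR, hLI⟩ := hBAS (d + 1) N (fam e (fun j : Fin N => u (J j.succ))) hLI0
  have hc : N + R = d := by omega
  obtain ⟨Ω, iΩ1, iΩ2, iΩ3⟩ : ∃ (Ω : Type u) (_ : Field Ω) (_ : Algebra L Ω), IsAlgClosed Ω :=
    ⟨AlgebraicClosure L, inferInstance, inferInstance, inferInstance⟩
  obtain ⟨Ω₁, iΩ4, iΩ5, μ, hμ⟩ : ∃ (Ω₁ : Type u) (_ : Field Ω₁) (_ : Algebra Ω Ω₁) (μ : Ω₁), Transcendental Ω μ :=
    ⟨RatFunc Ω, inferInstance, inferInstance, RatFunc.X, RatFunc.transcendental_X⟩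
  letI : Algebra k Ω := ((algebraMap L Ω).comp (algebraMap k L)).toAlgebra
  haveI : IsScalarTower k L Ω := IsScalarTower.of_algebraMap_eq (fun _ => rfl)
  letI : Algebra L₀ Ω := ((algebraMap L Ω).comp (algebraMap L₀ L)).toAlgebra
  haveI : IsScalarTower L₀ L Ω := IsScalarTower.of_algebraMap_eq (fun _ => rfl)
  letI : Algebra k Ω₁ := ((algebraMap Ω Ω₁).comp (algebraMap k Ω)).toAlgebra
  haveI : IsScalarTower k Ω Ω₁ := IsScalarTower.of_algebraMap_eq (fun _ => rfl)
  letI : Algebra L₀ Ω₁ := ((algebraMap Ω Ω₁).comp (algebraMap L₀ Ω)).toAlgebra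
  haveI : IsScalarTower L₀ Ω Ω₁ := IsScalarTower.of_algebraMap_eq (fun _ => rfl)
  letI : Algebra ℂ Ω₁ := ((algebraMap k Ω₁).comp (algebraMap ℂ k)).toAlgebra
  haveI : IsScalarTower ℂ k Ω₁ := IsScalarTower.of_algebraMap_eq (fun _ => rfl)
  haveI : IsScalarTower ℂ L₀ Ω₁ := IsScalarTower.of_algebraMap_eq (fun a => by
    change algebraMap Ω Ω₁ (algebraMap L Ω (algebraMap k L (algebraMap ℂ k a))) =
      algebraMap Ω Ω₁ (algebraMap L Ω (algebraMap L₀ L (algebraMap ℂ L₀ a)))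
    rw [← IsScalarTower.algebraMap_apply ℂ k L, ← IsScalarTower.algebraMap_apply ℂ L₀ L])
  have hX0 : ∀ i, algebraMap L Ω (x i) ≠ 0 := fun i => (map_ne_zero_iff _ (algebraMap L Ω).injective).2 (hx0 i)
  have hcard0 : Fintype.card (Fin N ⊕ Fin R) = d := by
    rw [Fintype.card_sum, Fintype.card_fin, Fintype.card_fin, hc]
  have hcard : Fintype.card (Option (Fin N ⊕ Fin R)) = d + 1 := by
    rw [Fintype.card_option, hcard0]
  obtain ⟨t, ht0, htx, htn⟩ := hINV Ω (Option (Fin N ⊕ Fin R)) (d + 1) hcard _ hLI (fun i => algebraMap L Ω (x i)) hX0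
  have halgt : ∀ o, IsAlgebraic L₀ (t o) := by
    intro o
    obtain ⟨n, hn, c, hcn⟩ := htn o
    exact FIN_alg _ (fun i => (halg i).algebraMap) hn c hcn
  by_cases hind : AlgebraicIndependent k
      (Sum.elim (fun j => t (some (Sum.inl j))) (fun l => t (some (Sum.inr l))) : Fin N ⊕ Fin R → Ω)
  · exact FIN_case1 hLAU hKC hPOL hSUM hIND hN hc x hgen f hf hfx (t none) _ _ (ht0 _) (fun _ => ht0 _) (fun _ => ht0 _)
      (fun _ => halgt _) e (fun j => u (J j)) v hLI (fun i => by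
        rw [htx i, Fintype.prod_option, Fintype.prod_sum_type]
        rfl) b q p hq hb hgcd hrel (fun m hm j => hfu m hm (J j)) hfe μ hμ hind
  · refine FIN_case2 hKC hIND hTR x hgen htr hcard0 _ (t none) (ext (fam e (fun j : Fin N => u (J j.succ))) v)
      (fun i => ?_) (halgt none) (ht0 none) μ hμ hind
    rw [htx i, Fintype.prod_option, Fintype.prod_sum_type, Fintype.prod_sum_type]
    rfl

end Pool.TW
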