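import Pool.Agent.Work.MP_501976_tw.Interface

/-! # Block IND: algebraic independence after scaling -/

set_option autoImplicit false

universe u v

open MvPolynomial MP501976

namespace Pool.TW

theorem p_IND : S_IND.{u, v} := by
  classical
  intro k _ Ω Ω₁ _ _ _ _ _ _ μ hμ Z N y hy a ha0
  -- lift of coefficients
  have hlift : ∀ c : IntermediateField.adjoin k (algebraMap Ω Ω₁ '' Z),
      ∃ c' : IntermediateField.adjoin k Z, algebraMap Ω Ω₁ (c' : Ω) = (c : Ω₁) := by
    intro c
    have h1 : (c : Ω₁) ∈ (IntermediateField.adjoin k Z).map (IsScalarTower.toAlgHom k Ω Ω₁) := by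
      rw [IntermediateField.adjoin_map]
      exact c.2
    obtain ⟨c', hc', h⟩ := h1
    exact ⟨⟨c', hc'⟩, h⟩
  choose L hL using hlift
  rw [AlgebraicIndependent, injective_iff_map_eq_zero]
  intro P hP
  let e : (Fin (N + 1) →₀ ℕ) → ℕ := fun m => a 0 * m 0 + ∑ j : Fin N, a j.succ * m j.succ
  let Q : Polynomial Ω := ∑ m ∈ P.support,
    Polynomial.monomial (e m) ((L (P.coeff m) : Ω) * ∏ j : Fin N, y j ^ m j.succ)
  have hQ : Polynomial.aeval μ Q = 0 := by
    rw [← hP]
    simp only [Q]
    rw [map_sum, MvPolynomial.aeval_def, MvPolynomial.eval₂_eq']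
    refine Finset.sum_congr rfl fun m _ => ?_
    rw [Polynomial.aeval_monomial, map_mul, hL, Fin.prod_univ_succ, map_prod]
    simp only [Fin.cons_zero, Fin.cons_succ, mul_pow, map_pow, Finset.prod_mul_distrib]
    have h1 : ∏ j : Fin N, (μ ^ a j.succ) ^ m j.succ = μ ^ ∑ j : Fin N, a j.succ * m j.succ := by
      rw [← Finset.prod_pow_eq_pow_sum]
      exact Finset.prod_congr rfl fun j _ => (pow_mul _ _ _).symm
    rw [h1, ← pow_mul]
    simp only [e]
    rw [pow_add]
    have h2 : (algebraMap (IntermediateField.adjoin k (algebraMap Ω Ω₁ '' Z)) Ω₁) (P.coeff m) =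
      ((P.coeff m : IntermediateField.adjoin k (algebraMap Ω Ω₁ '' Z)) : Ω₁) := rfl
    rw [h2]
    ring
  have hQ0 : Q = 0 := by
    by_contra h
    exact hμ ⟨Q, h, hQ⟩
  have hR : ∀ E : ℕ, ∑ m ∈ P.support.filter (fun m => e m = E),
      MvPolynomial.monomial (m.tail) (L (P.coeff m)) = 0 := by
    intro E
    have h1 := congrArg (fun q : Polynomial Ω => q.coeff E) hQ0
    simp only [Q, Polynomial.finsetSum_coeff, Polynomial.coeff_monomial, Polynomial.coeff_zero]
      at h1
    rw [← Finset.sum_filter] at h1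
    refine (injective_iff_map_eq_zero _).1 hy _ ?_
    rw [map_sum, ← h1]
    refine Finset.sum_congr rfl fun m _ => ?_
    rw [MvPolynomial.aeval_monomial, Finsupp.prod_fintype _ _ (fun _ => pow_zero _)]
    simp only [Finsupp.tail_apply]
    rfl
  ext m
  rw [MvPolynomial.coeff_zero]
  by_contra hne
  have hm : m ∈ P.support := MvPolynomial.mem_support_iff.2 (fun h => hne (by rw [h]))
  have h := congrArg (MvPolynomial.coeff m.tail) (hR (e m))
  rw [MvPolynomial.coeff_sum, Finset.sum_eq_single m, MvPolynomial.coeff_monomial, if_pos rfl,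
    MvPolynomial.coeff_zero] at h
  · apply hne
    have h3 := hL (P.coeff m)
    rw [h] at h3
    rw [← h3]
    simp
  · intro m' hm' hmm
    obtain ⟨-, he⟩ := Finset.mem_filter.1 hm'
    rw [MvPolynomial.coeff_monomial, if_neg]
    intro ht
    apply hmm
    have hs : ∀ j : Fin N, m' j.succ = m j.succ := by
      intro j
      have := DFunLike.congr_fun ht j
      simpa [Finsupp.tail_apply] using this
    have h0 : m' 0 = m 0 := by
      simp only [e] at he
      have h4 : ∑ j : Fin N, a j.succ * m' j.succ = ∑ j : Fin N, a j.succ * m j.succ :=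
        Finset.sum_congr rfl fun j _ => by rw [hs j]
      rw [h4] at he
      exact Nat.eq_of_mul_eq_mul_left ha0 (Nat.add_right_cancel he)
    ext i
    refine Fin.cases h0 (fun j => hs j) i
  · intro hh
    exfalso
    apply hh
    rw [Finset.mem_filter]
    exact ⟨hm, rfl⟩

end Pool.TW

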