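import Pool.Agent.Work.MP_501976_tw.Interface

/-! # Block INV: monomial inversion -/

set_option autoImplicit false

universe u v

open MvPolynomial MP501976

namespace Pool.TW

theorem INV_zpow_sum {Ω : Type u} [Field Ω] {ι : Type} (a : Ω) (ha : a ≠ 0) (s : Finset ι)
    (f : ι → ℤ) : ∏ o ∈ s, a ^ f o = a ^ ∑ o ∈ s, f o := by
  classical
  induction s using Finset.induction_on with
  | empty => simp
  | insert b s hb ih => rw [Finset.prod_insert hb, Finset.sum_insert hb, ih, zpow_add₀ ha]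

/-- the square case with index set `Fin d` -/
theorem INV_fin {Ω : Type u} [Field Ω] [IsAlgClosed Ω] {d : ℕ} (A : Matrix (Fin d) (Fin d) ℤ)
    (hA : A.det ≠ 0) (x : Fin d → Ω) (hx : ∀ i, x i ≠ 0) :
    ∃ t : Fin d → Ω, (∀ o, t o ≠ 0) ∧ (∀ i, x i = ∏ o, t o ^ A o i) ∧
      ∀ o, ∃ n : ℕ, 0 < n ∧ ∃ c : Fin d → ℤ, t o ^ n = ∏ i, x i ^ c i := by
  classical
  have hn : 0 < A.det.natAbs := Int.natAbs_pos.2 hA
  have hr : ∀ i, ∃ r : Ω, r ^ A.det.natAbs = x i := fun i =>
    IsAlgClosed.exists_pow_nat_eq (x i) hn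
  choose ρ hρ using hr
  have hρ0 : ∀ i, ρ i ≠ 0 := by
    intro i h
    apply hx i
    rw [← hρ i, h, zero_pow hn.ne']
  refine ⟨fun o => ∏ i, ρ i ^ (A.det.sign * A.adjugate i o), ?_, ?_, ?_⟩
  · intro o
    exact Finset.prod_ne_zero_iff.2 fun i _ => zpow_ne_zero _ (hρ0 i)
  · intro i
    have h1 : ∀ o, (∏ j, ρ j ^ (A.det.sign * A.adjugate j o)) ^ A o i =
        ∏ j, ρ j ^ (A.det.sign * A.adjugate j o * A o i) := by
      intro o
      rw [← Finset.prod_zpow]
      exact Finset.prod_congr rfl fun j _ => (zpow_mul _ _ _).symm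
    rw [Finset.prod_congr rfl fun o _ => h1 o, Finset.prod_comm]
    have h2 : ∀ j, ∏ o, ρ j ^ (A.det.sign * A.adjugate j o * A o i) =
        ρ j ^ (A.det.sign * (A.adjugate * A) j i) := by
      intro j
      rw [INV_zpow_sum _ (hρ0 j), Matrix.mul_apply, Finset.mul_sum]
      congr 1
      exact Finset.sum_congr rfl fun o _ => mul_assoc _ _ _
    rw [Finset.prod_congr rfl fun j _ => h2 j, Finset.prod_eq_single i]
    · rw [Matrix.adjugate_mul, Matrix.smul_apply, Matrix.one_apply_eq, smul_eq_mul, mul_one,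
        Int.sign_mul_self_eq_natAbs, zpow_natCast, hρ]
    · intro j _ hj
      rw [Matrix.adjugate_mul, Matrix.smul_apply, Matrix.one_apply_ne hj, smul_zero, mul_zero,
        zpow_zero]
    · intro h
      exact absurd (Finset.mem_univ i) h
  · intro o
    refine ⟨A.det.natAbs, hn, fun i => A.det.sign * A.adjugate i o, ?_⟩
    rw [← Finset.prod_pow]
    refine Finset.prod_congr rfl fun i _ => ?_
    rw [← hρ i, ← zpow_natCast, ← zpow_natCast, ← zpow_mul, ← zpow_mul, mul_comm]

theorem p_INV : S_INV.{u} := by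
  classical
  intro Ω _ _ ι _ d hd M hM x hx
  obtain ⟨e⟩ : Nonempty (Fin d ≃ ι) := ⟨(Fintype.equivFinOfCardEq hd).symm⟩
  let A : Matrix (Fin d) (Fin d) ℤ := fun o i => M (e o) i
  have hA : A.det ≠ 0 := by
    intro h0
    have h1 : (A.map (Int.castRingHom ℚ)).det = 0 := by
      rw [← RingHom.mapMatrix_apply, ← RingHom.map_det, h0, map_zero]
    have h2 : LinearIndependent ℚ (A.map (Int.castRingHom ℚ)).row := by
      have h3 := LinearIndependent.comp hM e e.injective
      exact h3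
    have h4 := (Matrix.linearIndependent_rows_iff_isUnit.1 h2)
    rw [Matrix.isUnit_iff_isUnit_det, h1] at h4
    exact not_isUnit_zero h4
  obtain ⟨t, ht0, ht1, ht2⟩ := INV_fin A hA x hx
  refine ⟨fun o => t (e.symm o), fun o => ht0 _, fun i => ?_, fun o => ht2 _⟩
  rw [ht1 i]
  refine Fintype.prod_equiv e _ _ fun o => ?_
  simp [A]

end Pool.TW

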