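import Pool.Agent.Work.MP_501976_tw.Interface

/-!
# MP_501976_ag, THEOREM TW, block KC (helper79)
-/

set_option autoImplicit false

universe u v

open MvPolynomial MP501976

namespace Pool.TW

theorem KC_top {κ : Type u} {Ω : Type u} [Field κ] [Field Ω] [Algebra κ Ω] (S : Set Ω)
    (T : Set (IntermediateField.adjoin κ S)) (hT : Subtype.val '' T = S) :
    IntermediateField.adjoin κ T = ⊤ := by
  apply IntermediateField.lift_injective
  rw [IntermediateField.lift_adjoin, IntermediateField.lift_top, hT]

theorem p_KC : S_KC.{u, v} := by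
  intro k _ _ _ Ω _ _ _ _ Z hZ N hN y hy wt hwt hgcd D hD w hw hw0 L₀ _ _ _ _ hL hal
  classical
  haveI hfg : Algebra.EssFiniteType k (IntermediateField.adjoin k Z) :=
    IntermediateField.essFiniteType_iff.2 (IntermediateField.fg_adjoin_of_finite hZ)
  haveI hess : Algebra.EssFiniteType ℂ (IntermediateField.adjoin k Z) :=
    Algebra.EssFiniteType.comp ℂ k (IntermediateField.adjoin k Z)
  haveI htow : IsScalarTower ℂ (IntermediateField.adjoin k Z) Ω := by
    apply IsScalarTower.of_algebraMap_eq
    intro c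
    rw [IsScalarTower.algebraMap_apply ℂ k Ω,
      IsScalarTower.algebraMap_apply ℂ k (IntermediateField.adjoin k Z),
      ← IsScalarTower.algebraMap_apply k (IntermediateField.adjoin k Z) Ω]
  have hmemL : ∀ a : L₀, algebraMap L₀ Ω a ∈
      IntermediateField.adjoin (IntermediateField.adjoin k Z) (Set.range y ∪ {w}) := by
    intro a
    have h1 := hL a
    rw [Set.union_assoc, ← IntermediateField.adjoin_adjoin_left] at h1
    exact h1
  let iL : Algebra L₀
      (IntermediateField.adjoin (IntermediateField.adjoin k Z) (Set.range y ∪ {w})) :=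
    RingHom.toAlgebra ((algebraMap L₀ Ω).codRestrict
      (IntermediateField.adjoin (IntermediateField.adjoin k Z) (Set.range y ∪ {w})) hmemL)
  have hval : ∀ a : L₀, ((algebraMap L₀
      (IntermediateField.adjoin (IntermediateField.adjoin k Z) (Set.range y ∪ {w})) a : _) : Ω)
      = algebraMap L₀ Ω a := fun a => rfl
  haveI t1 : IsScalarTower ℂ L₀
      (IntermediateField.adjoin (IntermediateField.adjoin k Z) (Set.range y ∪ {w})) := by
    apply IsScalarTower.of_algebraMap_eq
    intro c
    apply Subtype.ext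
    rw [hval, ← IsScalarTower.algebraMap_apply ℂ L₀ Ω]
    rfl
  haveI t2 : IsScalarTower L₀
      (IntermediateField.adjoin (IntermediateField.adjoin k Z) (Set.range y ∪ {w})) Ω :=
    IsScalarTower.of_algebraMap_eq fun a => rfl
  have hymem : ∀ j, y j ∈
      IntermediateField.adjoin (IntermediateField.adjoin k Z) (Set.range y ∪ {w}) := fun j =>
    IntermediateField.subset_adjoin _ _ (Or.inl ⟨j, rfl⟩)
  have hwmem : w ∈
      IntermediateField.adjoin (IntermediateField.adjoin k Z) (Set.range y ∪ {w}) :=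
    IntermediateField.subset_adjoin _ _ (Or.inr rfl)
  obtain ⟨x, hx⟩ : ∃ x : Fin (N + 1) →
      (IntermediateField.adjoin (IntermediateField.adjoin k Z) (Set.range y ∪ {w})),
      ∀ j, (x j : Ω) = y j := ⟨fun j => ⟨y j, hymem j⟩, fun j => rfl⟩
  obtain ⟨w', hw'⟩ : ∃ w' :
      (IntermediateField.adjoin (IntermediateField.adjoin k Z) (Set.range y ∪ {w})),
      (w' : Ω) = w := ⟨⟨w, hwmem⟩, rfl⟩
  have haev : ∀ P : MvPolynomial (Fin (N + 1)) (IntermediateField.adjoin k Z),
      ((aeval x P : _) : Ω) = aeval y P := by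
    intro P
    have h1 := MvPolynomial.aeval_algebraMap_apply Ω x P
    have h2 : (fun j => algebraMap (IntermediateField.adjoin (IntermediateField.adjoin k Z)
        (Set.range y ∪ {w})) Ω (x j)) = y := funext fun j => hx j
    have h3 : (algebraMap (IntermediateField.adjoin (IntermediateField.adjoin k Z)
        (Set.range y ∪ {w})) Ω) ∘ x = y := h2
    rw [h3] at h1
    exact h1.symm
  have hyne : ∀ j, y j ≠ 0 := fun j => hy.ne_zero j
  refine kummer_cones (k := IntermediateField.adjoin k Z)
    (L := IntermediateField.adjoin (IntermediateField.adjoin k Z) (Set.range y ∪ {w}))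
    (c := 0) (s := 0) (r := 1) wt (hwt 0) hgcd x ?_ (fun j => j.elim0) ?_ (fun _ => D) ?_
    (fun _ => 2) (fun _ => ∑ j, wt j) (fun _ => two_pos) (fun _ => hD) (fun _ => w') (fun _ => 2)
    (fun _ => two_pos) (fun _ _ => 1) ?_ ?_ ?_ ?_ ?_ ?_
  · intro j h
    apply hyne j
    rw [← hx j, h]
    rfl
  · have h1 : RingHom.ker (aeval x : MvPolynomial (Fin (N + 1)) (IntermediateField.adjoin k Z)
        →ₐ[IntermediateField.adjoin k Z] (IntermediateField.adjoin
          (IntermediateField.adjoin k Z) (Set.range y ∪ {w}))) = ⊥ := by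
      rw [eq_bot_iff]
      intro P hP
      rw [RingHom.mem_ker] at hP
      rw [Ideal.mem_bot]
      have h2 : aeval y P = 0 := by
        rw [← haev P, hP]
        rfl
      apply hy
      rw [map_zero]
      exact h2
    rw [h1]
    have h2 : (Set.range (fun j : Fin 0 => (j.elim0 :
        MvPolynomial (Fin (N + 1)) (IntermediateField.adjoin k Z)))) = ∅ := Set.range_eq_empty _
    rw [h2, Ideal.span_empty]
    exact ⟨⟨Ideal.isPrime_bot, le_rfl⟩, fun q _ _ => bot_le⟩
  · intro _ h
    have h1 : aeval y D = 0 := by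
      rw [← haev D, h]
      rfl
    rw [h1] at hw
    exact hw0 (pow_eq_zero_iff two_ne_zero |>.1 hw)
  · intro _
    apply Subtype.ext
    rw [Fin.prod_univ_one, pow_one, haev D]
    show (w' : Ω) ^ 2 = aeval y D
    rw [hw', hw]
  · intro _ _
    exact ⟨1, rfl⟩
  · apply KC_top
    ext z
    constructor
    · rintro ⟨z', hz', rfl⟩
      rcases hz' with ⟨j, rfl⟩ | ⟨j, rfl⟩
      · exact Or.inl ⟨j, (hx j).symm⟩
      · exact Or.inr hw'
    · rintro (⟨j, rfl⟩ | rfl)
      · exact ⟨x j, Or.inl ⟨j, rfl⟩, hx j⟩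
      · exact ⟨w', Or.inr ⟨0, rfl⟩, hw'⟩
  · right
    right
    refine ⟨dvd_refl 2, ?_⟩
    have h1 : ∑ _j : Fin (N + 1), 1 ≤ ∑ j, wt j := Finset.sum_le_sum fun j _ => hwt j
    rw [Finset.sum_const, Finset.card_univ, Fintype.card_fin, smul_eq_mul, mul_one] at h1
    omega
  · simp
  · intro i
    have h1 := hal i
    rw [← isAlgebraic_algebraMap_iff (R := L₀) (A := Ω)
      (algebraMap (IntermediateField.adjoin (IntermediateField.adjoin k Z)
        (Set.range y ∪ {w})) Ω).injective]
    rw [map_div₀, map_pow, map_pow]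
    have h2 : ∀ j, algebraMap (IntermediateField.adjoin (IntermediateField.adjoin k Z)
        (Set.range y ∪ {w})) Ω (x j) = y j := hx
    rw [h2, h2]
    exact h1

end Pool.TW
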