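import Pool.Agent.Work.MP_501976_tw.Interface

/-! # Block LAU (helper45) -/

set_option autoImplicit false

universe u v

open MvPolynomial MP501976

namespace Pool.TW

/-- the shifted exponent -/
noncomputable def LAU_e {ι : Type} [Fintype ι] (B : ℕ) (m : ι → ℤ) : ι →₀ ℕ :=
  Finsupp.equivFunOnFinite.symm (fun o => (m o + B).toNat)

theorem LAU_e_apply {ι : Type} [Fintype ι] (B : ℕ) (m : ι → ℤ) (o : ι) :
    LAU_e B m o = (m o + B).toNat := rfl

theorem p_LAU : S_LAU.{u, v} := by
  classical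
  intro k _ Ω _ _ ι _ t ht g hg
  obtain ⟨B, hB⟩ : ∃ B : ℕ, ∀ m ∈ g.support, ∀ o, 0 ≤ m o + B := by
    refine ⟨∑ m ∈ g.support, ∑ o, (m o).natAbs, fun m hm o => ?_⟩
    have h1 : (m o).natAbs ≤ ∑ o, (m o).natAbs :=
      Finset.single_le_sum (f := fun o => (m o).natAbs) (fun _ _ => Nat.zero_le _)
        (Finset.mem_univ o)
    have h2 : ∑ o, (m o).natAbs ≤ ∑ m ∈ g.support, ∑ o, (m o).natAbs :=
      Finset.single_le_sum (f := fun m : ι → ℤ => ∑ o, (m o).natAbs) (fun _ _ => Nat.zero_le _) hm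
    omega
  have hne : ∀ o, t o ≠ 0 := fun o => ht.ne_zero o
  have hP : (MvPolynomial.aeval t) (∑ m ∈ g.support, monomial (LAU_e B m) (g m)) = 0 := by
    rw [map_sum]
    have h3 : ∀ m ∈ g.support, (MvPolynomial.aeval t) (monomial (LAU_e B m) (g m)) =
        (∏ o, t o ^ B) * (algebraMap k Ω (g m) * ∏ o, t o ^ m o) := by
      intro m hm
      rw [aeval_monomial, Finsupp.prod_fintype _ _ (fun i => pow_zero _), mul_left_comm,
        ← Finset.prod_mul_distrib]
      congr 1
      refine Finset.prod_congr rfl fun o _ => ?_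
      rw [LAU_e_apply, ← zpow_natCast (t o) ((m o + B).toNat), Int.toNat_of_nonneg (hB m hm o),
        zpow_add₀ (hne o), zpow_natCast, mul_comm]
    rw [Finset.sum_congr rfl h3, ← Finset.mul_sum]
    have h4 : ∑ m ∈ g.support, algebraMap k Ω (g m) * ∏ o, t o ^ m o = 0 := hg
    rw [h4, mul_zero]
  have hP0 : (∑ m ∈ g.support, monomial (LAU_e B m) (g m) : MvPolynomial ι k) = 0 := by
    apply ht
    rw [hP, map_zero]
  by_contra hcon
  obtain ⟨m0, hm0⟩ := Finsupp.support_nonempty_iff.mpr hcon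
  have h5 := congrArg (coeff (LAU_e B m0)) hP0
  rw [coeff_sum, coeff_zero, Finset.sum_eq_single m0] at h5
  · rw [coeff_monomial, if_pos rfl] at h5
    exact (Finsupp.mem_support_iff.mp hm0) h5
  · intro m hm hmm
    rw [coeff_monomial, if_neg]
    intro he
    apply hmm
    funext o
    have h6 := DFunLike.congr_fun he o
    rw [LAU_e_apply, LAU_e_apply] at h6
    have h7 := hB m hm o
    have h8 := hB m0 hm0 o
    omega
  · intro h
    exact absurd hm0 h

end Pool.TW
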