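import Pool.Agent.Work.MP_501976_tw.Interface

/-!
# Block POL: the discriminant polynomial (typed by helper53)
-/

set_option autoImplicit false

universe u v

open MvPolynomial MP501976

namespace Pool.TW

section POL

variable {κ : Type v} [Field κ] {τ : Type} (T : Finset τ) (c : τ → κ) (h : τ → ℤ) {N : ℕ}
  (n : τ → Fin (N + 1) → ℤ)

/-- the exponent -/
noncomputable def POL_E (m : τ) : Fin (N + 1) →₀ ℕ :=
  Finsupp.equivFunOnFinite.symm fun j => (n m j + 1).toNat

/-- the part of height `i` -/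
noncomputable def POL_P (i : ℤ) : MvPolynomial (Fin (N + 1)) κ :=
  ∑ m ∈ T with h m = i, monomial (POL_E n m) (c m)

variable {T c h n}

theorem POL_coeff {i : ℤ} {d : Fin (N + 1) →₀ ℕ} (hd : coeff d (POL_P T c h n i) ≠ 0) :
    ∃ m ∈ T, h m = i ∧ POL_E n m = d := by
  classical
  unfold POL_P at hd
  rw [coeff_sum] at hd
  obtain ⟨m, hm, hne⟩ := Finset.exists_ne_zero_of_sum_ne_zero hd
  rw [Finset.mem_filter] at hm
  refine ⟨m, hm.1, hm.2, ?_⟩
  by_contra h1
  rw [coeff_monomial, if_neg h1] at hne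
  exact hne rfl

theorem POL_weight (b : Fin (N + 1) → ℕ) (q : ℕ) (p : ℤ) (hn : ∀ m ∈ T, ∀ j, -1 ≤ n m j)
    (hb : ∀ m ∈ T, (q : ℤ) * ∑ j, (b j : ℤ) * n m j = p * h m) {m : τ} (hm : m ∈ T) :
    (q : ℤ) * ((Finsupp.weight b (POL_E n m) : ℕ) : ℤ) = p * h m + (q : ℤ) * ∑ j, (b j : ℤ) := by
  have h1 : ((Finsupp.weight b (POL_E n m) : ℕ) : ℤ) = ∑ j, (b j : ℤ) * n m j + ∑ j, (b j : ℤ) := by
    rw [Finsupp.weight_apply, Finsupp.sum_fintype _ _ (fun j => zero_smul ℕ (b j))]
    rw [← Finset.sum_add_distrib]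
    push_cast
    refine Finset.sum_congr rfl fun j _ => ?_
    have h2 : ((POL_E n m j : ℕ) : ℤ) = n m j + 1 := by
      change (((n m j + 1).toNat : ℕ) : ℤ) = n m j + 1
      exact Int.toNat_of_nonneg (by linarith [hn m hm j])
    rw [smul_eq_mul]
    push_cast
    rw [h2]
    ring
  rw [h1, mul_add, hb m hm]

theorem POL_hom0 (b : Fin (N + 1) → ℕ) (q : ℕ) (p : ℤ) (hq : 0 < q)
    (hn : ∀ m ∈ T, ∀ j, -1 ≤ n m j)
    (hb : ∀ m ∈ T, (q : ℤ) * ∑ j, (b j : ℤ) * n m j = p * h m) :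
    IsWeightedHomogeneous b (POL_P T c h n 0) (∑ j, b j) := by
  intro d hd
  obtain ⟨m, hm, h0, rfl⟩ := POL_coeff hd
  have h1 := POL_weight b q p hn hb hm
  rw [h0, mul_zero, zero_add] at h1
  have h2 : ((Finsupp.weight b (POL_E n m) : ℕ) : ℤ) = ∑ j, (b j : ℤ) :=
    mul_left_cancel₀ (by exact_mod_cast hq.ne') h1
  exact_mod_cast h2

theorem POL_hom1 (b : Fin (N + 1) → ℕ) (q : ℕ) (p : ℤ) (hq : 0 < q)
    (hn : ∀ m ∈ T, ∀ j, -1 ≤ n m j)
    (hb : ∀ m ∈ T, (q : ℤ) * ∑ j, (b j : ℤ) * n m j = p * h m) :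
    IsWeightedHomogeneous b (POL_P T c h n 1 * POL_P T c h n (-1)) (∑ j, b j + ∑ j, b j) := by
  classical
  intro d hd
  rw [coeff_mul] at hd
  obtain ⟨x, hx, hne⟩ := Finset.exists_ne_zero_of_sum_ne_zero hd
  obtain ⟨m1, hm1, h1, e1⟩ := POL_coeff (left_ne_zero_of_mul hne)
  obtain ⟨m2, hm2, h2, e2⟩ := POL_coeff (right_ne_zero_of_mul hne)
  rw [Finset.HasAntidiagonal.mem_antidiagonal] at hx
  rw [← hx, map_add, ← e1, ← e2]
  have w1 := POL_weight b q p hn hb hm1
  have w2 := POL_weight b q p hn hb hm2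
  rw [h1] at w1
  rw [h2] at w2
  have h3 : (q : ℤ) * (((Finsupp.weight b (POL_E n m1) : ℕ) : ℤ) +
      ((Finsupp.weight b (POL_E n m2) : ℕ) : ℤ)) = (q : ℤ) * (∑ j, (b j : ℤ) + ∑ j, (b j : ℤ)) := by
    rw [mul_add, w1, w2]
    ring
  have h4 := mul_left_cancel₀ (show (q : ℤ) ≠ 0 by exact_mod_cast hq.ne') h3
  exact_mod_cast h4

theorem POL_homD (b : Fin (N + 1) → ℕ) (q : ℕ) (p : ℤ) (hq : 0 < q)
    (hn : ∀ m ∈ T, ∀ j, -1 ≤ n m j)
    (hb : ∀ m ∈ T, (q : ℤ) * ∑ j, (b j : ℤ) * n m j = p * h m) :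
    IsWeightedHomogeneous b (POL_P T c h n 0 * POL_P T c h n 0 -
      4 * (POL_P T c h n 1 * POL_P T c h n (-1))) (∑ j, b j + ∑ j, b j) := by
  have h0 := POL_hom0 (c := c) b q p hq hn hb
  have h1 := POL_hom1 (c := c) b q p hq hn hb
  have h2 := h0.mul h0
  rw [← mem_weightedHomogeneousSubmodule] at h1 h2 ⊢
  refine Submodule.sub_mem _ h2 ?_
  have h3 : 4 * (POL_P T c h n 1 * POL_P T c h n (-1)) =
      (4 : ℕ) • (POL_P T c h n 1 * POL_P T c h n (-1)) := by
    rw [nsmul_eq_mul]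
    norm_num
  rw [h3]
  exact nsmul_mem h1 4

theorem POL_deg {b : Fin (N + 1) → ℕ} {D : MvPolynomial (Fin (N + 1)) κ} {k : ℕ}
    (hD : IsWeightedHomogeneous b D k) : weightedTotalDegree b D ≤ k :=
  Finset.sup_le fun _ hd => (hD (mem_support_iff.1 hd)).le

theorem POL_eval {Ω : Type u} [Field Ω] [Algebra κ Ω] (hn : ∀ m ∈ T, ∀ j, -1 ≤ n m j)
    (y : Fin (N + 1) → Ω) (hy : ∀ j, y j ≠ 0) (i : ℤ) :
    aeval y (POL_P T c h n i) =
      (∑ m ∈ T with h m = i, algebraMap κ Ω (c m) * ∏ j, y j ^ n m j) * ∏ j, y j := by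
  unfold POL_P
  rw [map_sum, Finset.sum_mul]
  refine Finset.sum_congr rfl fun m hm => ?_
  rw [Finset.mem_filter] at hm
  rw [aeval_monomial, Finsupp.prod_fintype _ _ (fun j => pow_zero (y j)), mul_assoc,
    ← Finset.prod_mul_distrib]
  congr 1
  refine Finset.prod_congr rfl fun j _ => ?_
  have h2 : ((POL_E n m j : ℕ) : ℤ) = n m j + 1 := by
    change (((n m j + 1).toNat : ℕ) : ℤ) = n m j + 1
    exact Int.toNat_of_nonneg (by linarith [hn m hm.1 j])
  rw [← zpow_natCast, h2, zpow_add_one₀ (hy j)]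

theorem POL_mem {Ω : Type u} [Field Ω] [Algebra κ Ω] (y : Fin (N + 1) → Ω) (w : Ω)
    (P : MvPolynomial (Fin (N + 1)) κ) :
    aeval y P ∈ IntermediateField.adjoin κ (Set.range y ∪ {w}) := by
  have h1 : aeval y P ∈ Algebra.adjoin κ (Set.range y) := by
    rw [Algebra.adjoin_range_eq_range_aeval]
    exact ⟨P, rfl⟩
  exact IntermediateField.algebra_adjoin_le_adjoin κ _
    (Algebra.adjoin_mono Set.subset_union_left h1)

end POL

theorem p_POL : S_POL.{u, v} := by
  intro κ _ Ω _ _ _ τ T c h N n b q p hq hh hn hb y ξ hy hξ hrel hex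
  have hY : ∏ j, y j ≠ 0 := Finset.prod_ne_zero_iff.2 fun j _ => hy j
  let S : ℤ → Ω := fun i => ∑ m ∈ T with h m = i, algebraMap κ Ω (c m) * ∏ j, y j ^ n m j
  let A : Ω := aeval y (POL_P T c h n 1)
  let B : Ω := aeval y (POL_P T c h n 0)
  let C' : Ω := aeval y (POL_P T c h n (-1))
  have eA : A = S 1 * ∏ j, y j := POL_eval hn y hy 1
  have eB : B = S 0 * ∏ j, y j := POL_eval hn y hy 0
  have eC : C' = S (-1) * ∏ j, y j := POL_eval hn y hy (-1)
  have hsum : S 1 * ξ + S 0 + S (-1) * ξ⁻¹ = 0 := by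
    have h1 : ∀ m ∈ T, h m ∈ ({1, 0, -1} : Finset ℤ) := by
      intro m hm
      have h2 := abs_le.1 (hh m hm)
      rw [Finset.mem_insert, Finset.mem_insert, Finset.mem_singleton]
      omega
    have h2 := Finset.sum_fiberwise_of_maps_to h1
      (fun m => algebraMap κ Ω (c m) * ξ ^ h m * ∏ j, y j ^ n m j)
    have h3 : ∀ i : ℤ, ∑ m ∈ T with h m = i, algebraMap κ Ω (c m) * ξ ^ h m * ∏ j, y j ^ n m j =
        S i * ξ ^ i := by
      intro i
      change _ = (∑ m ∈ T with h m = i, algebraMap κ Ω (c m) * ∏ j, y j ^ n m j) * ξ ^ i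
      rw [Finset.sum_mul]
      refine Finset.sum_congr rfl fun m hm => ?_
      rw [Finset.mem_filter] at hm
      rw [hm.2]
      ring
    rw [hrel, Finset.sum_congr rfl (fun i _ => h3 i), Finset.sum_insert (by decide),
      Finset.sum_insert (by decide), Finset.sum_singleton, zpow_one, zpow_zero, zpow_neg, zpow_one] at h2
    linear_combination h2
  have hquad : A * ξ ^ 2 + B * ξ + C' = 0 := by
    have h1 : ξ⁻¹ * ξ = 1 := inv_mul_cancel₀ hξ
    rw [eA, eB, eC]
    linear_combination (∏ j, y j) * ξ * hsum - (S (-1)) * (∏ j, y j) * h1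
  have hnz : ¬ (A = 0 ∧ B = 0 ∧ C' = 0) := by
    rintro ⟨hA, hB, hC⟩
    obtain ⟨i, hi⟩ := hex
    have h1 : i = 1 ∨ i = 0 ∨ i = -1 := by
      by_contra h2
      apply hi
      have h3 : (T.filter fun m => h m = i) = ∅ := by
        rw [Finset.filter_eq_empty_iff]
        intro m hm h4
        have h5 := abs_le.1 (hh m hm)
        omega
      rw [h3, Finset.sum_empty]
    rw [eA] at hA
    rw [eB] at hB
    rw [eC] at hC
    rcases h1 with rfl | rfl | rfl
    · exact hi ((mul_eq_zero.1 hA).resolve_right hY)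
    · exact hi ((mul_eq_zero.1 hB).resolve_right hY)
    · exact hi ((mul_eq_zero.1 hC).resolve_right hY)
  by_cases hw : 2 * A * ξ + B = 0
  · have hA : A ≠ 0 := by
      intro hA
      rw [hA] at hw hquad
      have hB : B = 0 := by linear_combination hw
      rw [hB] at hquad
      exact hnz ⟨hA, hB, by linear_combination hquad⟩
    refine ⟨1, 1, ?_, ?_, one_ne_zero, ?_⟩
    · exact (POL_deg (isWeightedHomogeneous_one κ b)).trans (Nat.zero_le _)
    · rw [map_one, one_pow]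
    · have h1 : ξ = -B / (2 * A) := by
        rw [eq_div_iff (mul_ne_zero two_ne_zero hA)]
        linear_combination hw
      have h2 : (2 : Ω) ∈ IntermediateField.adjoin κ (Set.range y ∪ {(1 : Ω)}) := by
        have := natCast_mem (IntermediateField.adjoin κ (Set.range y ∪ {(1 : Ω)})) 2
        exact_mod_cast this
      rw [h1]
      exact div_mem (neg_mem (POL_mem y 1 _)) (mul_mem h2 (POL_mem y 1 _))
  · refine ⟨POL_P T c h n 0 * POL_P T c h n 0 - 4 * (POL_P T c h n 1 * POL_P T c h n (-1)),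
      2 * A * ξ + B, ?_, ?_, hw, ?_⟩
    · rw [two_mul]
      exact POL_deg (POL_homD b q p hq hn hb)
    · rw [map_sub, map_mul, map_mul, map_mul]
      have h4 : aeval y (4 : MvPolynomial (Fin (N + 1)) κ) = (4 : Ω) := map_ofNat _ 4
      rw [h4]
      change (2 * A * ξ + B) ^ 2 = B * B - 4 * (A * C')
      linear_combination (4 * A) * hquad
    · have hwm : 2 * A * ξ + B ∈ IntermediateField.adjoin κ (Set.range y ∪ {2 * A * ξ + B}) :=
        IntermediateField.subset_adjoin κ _ (Or.inr rfl)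
      by_cases hA : A = 0
      · have hB : B ≠ 0 := by
          intro hB
          apply hw
          rw [hA, hB]
          ring
        have h1 : ξ = -C' / B := by
          rw [eq_div_iff hB]
          rw [hA] at hquad
          linear_combination hquad
        rw [h1]
        exact div_mem (neg_mem (POL_mem y _ _)) (POL_mem y _ _)
      · have h1 : ξ = (2 * A * ξ + B - B) / (2 * A) := by
          rw [eq_div_iff (mul_ne_zero two_ne_zero hA)]
          ring
        have h2 : (2 : Ω) ∈ IntermediateField.adjoin κ (Set.range y ∪ {2 * A * ξ + B}) := by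
          have := natCast_mem (IntermediateField.adjoin κ (Set.range y ∪ {2 * A * ξ + B})) 2
          exact_mod_cast this
        have h3 : (2 * A * ξ + B - B) / (2 * A) ∈
            IntermediateField.adjoin κ (Set.range y ∪ {2 * A * ξ + B}) :=
          div_mem (sub_mem hwm (POL_mem y _ _)) (mul_mem h2 (POL_mem y _ _))
        rw [← h1] at h3
        exact h3

end Pool.TW
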