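import Pool.Agent.Work.MP_501976_tw.Interface

/-!
# MP_501976_ag, THEOREM TW, block SUM (typed by helper98)
-/

set_option autoImplicit false

universe u v

open MvPolynomial MP501976

namespace Pool.TW

open scoped IntermediateField.algebraAdjoinAdjoin in
theorem p_SUM : S_SUM.{u, v} := by
  intro k _ Ω _ _ N R y z h
  have h1 := (AlgebraicIndependent.sumElim_iff.1 h).2
  exact h1.extendScalars (IntermediateField.adjoin k (Set.range z))

end Pool.TW
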