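import Pool.Agent.Work.MP_501976_tw.Interface

/-!
# MP_501976_ag, THEOREM TW, block TR
-/

set_option autoImplicit false

universe u v

open MvPolynomial MP501976

namespace Pool.TW

open scoped IntermediateField.algebraAdjoinAdjoin in
theorem TR_alg {k Ω : Type*} [Field k] [Field Ω] [Algebra k Ω] {ι : Type*} (t : ι → Ω) (a : Ω)
    (h : IsAlgebraic (IntermediateField.adjoin k (Set.range t)) a) :
    IsAlgebraic (Algebra.adjoin k (Set.range t)) a :=
  (IsFractionRing.isAlgebraic_iff (Algebra.adjoin k (Set.range t))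
    (IntermediateField.adjoin k (Set.range t)) Ω).2 h

theorem p_TR : S_TR.{u, v} := by
  intro k _ L Ω _ _ _ _ _ _ ι _ t ξ hcard hK hni
  by_contra halg
  rw [Transcendental, not_not] at halg
  obtain ⟨K, hKd⟩ : ∃ K, K = IntermediateField.adjoin k (Set.range t ∪ {ξ}) := ⟨_, rfl⟩
  rw [← hKd] at hK
  have ht : ∀ i, t i ∈ K := fun i => by
    rw [hKd]
    exact IntermediateField.subset_adjoin _ _ (Or.inl ⟨i, rfl⟩)
  let t' : ι → K := fun i => ⟨t i, ht i⟩
  have hKF : ∀ a ∈ K, IsAlgebraic (IntermediateField.adjoin k (Set.range t)) a := by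
    have hle : K ≤ (algebraicClosure (IntermediateField.adjoin k (Set.range t)) Ω).restrictScalars k := by
      rw [hKd, IntermediateField.adjoin_le_iff]
      rintro x (⟨i, rfl⟩ | hx)
      · have h1 : t i ∈ IntermediateField.adjoin k (Set.range t) :=
          IntermediateField.subset_adjoin _ _ ⟨i, rfl⟩
        exact mem_algebraicClosure_iff.2
          (isAlgebraic_algebraMap (⟨t i, h1⟩ : IntermediateField.adjoin k (Set.range t)))
      · rw [Set.mem_singleton_iff] at hx
        subst hx
        exact mem_algebraicClosure_iff.2 halg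
    intro a ha
    exact mem_algebraicClosure_iff.1 (hle ha)
  have hKA : ∀ a ∈ K, IsAlgebraic (Algebra.adjoin k (Set.range t)) a := fun a ha =>
    TR_alg t a (hKF a ha)
  have hmap : (Algebra.adjoin k (Set.range t')).map K.val = Algebra.adjoin k (Set.range t) := by
    rw [AlgHom.map_adjoin, ← Set.range_comp]
    rfl
  let f : Algebra.adjoin k (Set.range t') →ₐ[k] Algebra.adjoin k (Set.range t) :=
    (K.val.comp (Algebra.adjoin k (Set.range t')).val).codRestrict _ (by
      intro x
      rw [← hmap]
      exact ⟨x.1, x.2, rfl⟩)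
  have hf : Function.Surjective f := by
    intro y
    obtain ⟨x, hx, hxy⟩ := (SetLike.ext_iff.1 hmap y.1).2 y.2
    exact ⟨⟨x, hx⟩, Subtype.ext hxy⟩
  have hA : Algebra.IsAlgebraic (Algebra.adjoin k (Set.range t')) K := ⟨fun a =>
    (hKA a a.2).of_ringHom_of_comp_eq f K.val hf (fun x y h => Subtype.ext h) rfl⟩
  let g : L →ₐ[k] K := (IsScalarTower.toAlgHom k L Ω).codRestrict K.toSubalgebra hK
  have hg : Function.Injective g := g.toRingHom.injective
  have h1 : Algebra.trdeg k L ≤ Algebra.trdeg k K := trdeg_le_of_injective g hg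
  have h2 := Algebra.IsAlgebraic.isTranscendenceBasis_of_lift_le_trdeg_of_finite k t' (by
    rw [Cardinal.mk_fintype, Cardinal.lift_natCast]
    simpa using hcard.trans h1)
  have h3 : AlgebraicIndependent k (K.val ∘ t') := h2.1.map' (fun x y h => Subtype.ext h)
  exact hni h3

end Pool.TW
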