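import Pool.Agent.Work.MP_501976_tw.Interface
import Pool.Agent.Work.MP_501976_tw.B_CIR
import Pool.Agent.Work.MP_501976_tw.B_BAS
import Pool.Agent.Work.MP_501976_tw.B_INV
import Pool.Agent.Work.MP_501976_tw.B_LAU
import Pool.Agent.Work.MP_501976_tw.B_KC
import Pool.Agent.Work.MP_501976_tw.B_POL
import Pool.Agent.Work.MP_501976_tw.B_SUM
import Pool.Agent.Work.MP_501976_tw.B_IND
import Pool.Agent.Work.MP_501976_tw.B_TR
import Pool.Agent.Work.MP_501976_tw.B_FIN

/-!
# MP_501976_ag, THEOREM TW, assembled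
-/

set_option autoImplicit false

universe u v

namespace Pool.TW

theorem TW : S_FIN.{u, v} :=
  p_FIN p_CIR p_BAS p_INV p_LAU p_KC p_POL p_SUM p_IND p_TR

end Pool.TW
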